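import Pool.Agent.H88.VAS.NumV
import Pool.Agent.H46.LSH.Lev
import Pool.Agent.H19.VAS.Def
import Pool.Agent.H25.LSH.H3b

/-!
# The levels of the places, no ties

`GeoV`: all the places around `(i, j)` which the middle needs, for `X` digits. `exists_geoV`: they
exist; the room is quadratic in the number of steps `X / z`.
-/

set_option autoImplicit false

namespace Pool.VAS

open Finset
open Pool.Agent.H49.Ent Pool.Agent.H32.Dense Pool.STK Pool.STAT Pool.MIC Pool.MicA
open Pool.LSH (Pls Plc Pln Dir plc gl of_rk rk_co)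

/-- The requirements on `W` for `X` digits. -/
structure WOkV (n : ℕ) (lam : ℕ → ℝ) (C₁ : ℝ) (cN z X W : ℕ) : Prop where
  win : X + (cN + 1) * z ≤ W * z
  C : 2 * C₁ + 1 ≤ W
  num : (X : ℝ) + 2 * C₁ * z ≤ W * z
  hor : ∀ l, 1 ≤ l → l ≤ n → (X : ℝ) + 2 * C₁ * z ≤ lam l * (W * z)

/-- The choice of `W`. -/
theorem exists_wokV (n : ℕ) (lam : ℕ → ℝ) (hl : ∀ l, 0 < lam l) (C₁ : ℝ) (hC₁ : 0 ≤ C₁)
    (cN : ℕ) : ∃ A₀ : ℕ, ∀ z X : ℕ, 1 ≤ z → WOkV n lam C₁ cN z X (A₀ * (X / z + 1)) := by
  obtain ⟨lm, hlm, hlm1⟩ := Pool.LSH.exists_pos_lb (range (n + 1)) lam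
  obtain ⟨x, hx⟩ := exists_nat_ge ((1 + 2 * C₁) / lm)
  obtain ⟨y, hy⟩ := exists_nat_ge (2 * C₁ + 1)
  refine ⟨x + y + (cN + 2), fun z X hz => ?_⟩
  obtain ⟨t, ht⟩ : ∃ t, t = X / z + 1 := ⟨_, rfl⟩
  rw [← ht]
  have hXt : X ≤ t * z := by
    rw [ht]
    have h1 := Nat.div_add_mod X z
    have h2 := Nat.mod_lt X (show 0 < z by omega)
    have h3 : (X / z + 1) * z = z * (X / z) + z := by ring
    omega
  have ht1 : 1 ≤ t := by rw [ht]; exact Nat.le_add_left 1 _
  have hz1 : (1 : ℝ) ≤ z := by exact_mod_cast hz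
  have ht1r : (1 : ℝ) ≤ t := by exact_mod_cast ht1
  have hXr : (X : ℝ) ≤ t * z := by exact_mod_cast hXt
  have htz : (z : ℝ) ≤ t * z := by nlinarith
  have h2C : 2 * C₁ * (z : ℝ) ≤ 2 * C₁ * (t * z) := mul_le_mul_of_nonneg_left htz (by linarith)
  have hxr : (0 : ℝ) ≤ x := Nat.cast_nonneg _
  have hyr : (0 : ℝ) ≤ y := Nat.cast_nonneg _
  have hcr : (0 : ℝ) ≤ cN := Nat.cast_nonneg _
  have htz0 : (0 : ℝ) ≤ t * z := by positivity
  have hC1 : (X : ℝ) + 2 * C₁ * z ≤ (1 + 2 * C₁) * (t * z) := by nlinarith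
  refine ⟨?_, ?_, ?_, fun l l1 l2 => ?_⟩
  · have h1 : (x + y + (cN + 2)) * t * z = t * z + (cN + 1) * (t * z) + (x + y) * (t * z) := by
      ring
    have h2 : (cN + 1) * z ≤ (cN + 1) * (t * z) :=
      Nat.mul_le_mul_left _ (Nat.le_mul_of_pos_left _ (by omega))
    have h3 : (x + y) * (t * z) ≥ 0 := Nat.zero_le _
    omega
  · push_cast
    have h1 : (2 * C₁ + 1) * 1 ≤ (x + y + (cN + 2)) * t := by
      refine mul_le_mul ?_ ht1r zero_le_one (by positivity)
      linarith
    linarith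
  · push_cast
    refine hC1.trans ?_
    have h1 : (1 + 2 * C₁) * (t * z) ≤ (x + y + (cN + 2)) * (t * z) :=
      mul_le_mul_of_nonneg_right (by linarith) htz0
    refine h1.trans (le_of_eq ?_)
    ring
  · have h1 := hlm1 l (by simp; omega) (hl l)
    rw [div_le_iff₀ hlm] at hx
    push_cast
    refine hC1.trans ?_
    have h2 : (1 + 2 * C₁) * (t * z) ≤ (x * lam l) * (t * z) := by
      refine mul_le_mul_of_nonneg_right ?_ htz0
      exact hx.trans (mul_le_mul_of_nonneg_left h1 hxr)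
    refine h2.trans ?_
    have h3 : x * lam l * (t * z) ≤ (x + y + (cN + 2)) * lam l * (t * z) := by
      refine mul_le_mul_of_nonneg_right ?_ htz0
      exact mul_le_mul_of_nonneg_right (by linarith) (hl l).le
    refine h3.trans (le_of_eq ?_)
    ring

/-- The order of two levels, in digits. -/
theorem lvx {D : NDat2} {n K J a₀ w₀ z M : ℕ} {lam gam : ℕ → ℝ} {κ C₁ : ℝ} {q : D.Ω → ℝ}
    (hO : D.Ok2 n K J a₀ w₀ z M lam gam κ C₁ q) {i j i' j' l : ℕ} {x : ℝ} (hi : i ≤ M)
    (hj : j ≤ M) (hi' : i' ≤ M) (hj' : j' ≤ M) (l1 : 1 ≤ l) (l2 : l ≤ n)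
    (h : (lam l * i + gam l * j) * z + x + 2 * C₁ * z ≤ (lam l * i' + gam l * j') * z) :
    (D.g i j l : ℝ) + x ≤ D.g i' j' l := by
  have h1 := abs_le.1 (hO.hom i hi j hj l l1 l2)
  have h2 := abs_le.1 (hO.hom i' hi' j' hj' l l1 l2)
  linarith [h1.1, h1.2, h2.1, h2.2]

/-- **The places around `(i, j)`.** `π` and `a` are the places of the sheets, the own pair of the
target is `(i - S' an, j + S' be)`. -/
structure GeoV (D : NDat2) (n z X cN M : ℕ) (lam gam : ℕ → ℝ) (i j : ℕ) {k : ℕ} (π : Pls k)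
    (a : ℕ × ℕ) (an be s S' : ℕ) : Prop where
  o : π.o = (i, j)
  plc : Plc D n z X cN M π
  pln : Pln D n z X cN M π a
  /-- the fields of `Plg` -/
  a_eq : a = (π.o.1 + an, π.o.2 - be)
  be_le : be ≤ π.o.2
  o1 : S' * an ≤ π.o.1
  o2 : π.o.2 + S' * be < M
  r1 : a.1 + s * an < M
  r2 : s * be ≤ a.2
  rA : a.1 + X / z ≤ M
  nar : ∀ l, 1 ≤ l → l < n → π.rk l < k →
    D.g a.1 a.2 l + X ≤ D.g (a.1 + s * an) (a.2 - s * be) l + cN * z
  wid : ∀ l, 1 ≤ l → l < n → ¬ π.rk l < k → D.g a.1 a.2 l + X ≤ D.g π.o.1 π.o.2 l + cN * z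
  hor : ∀ r, (π.p r).2 = a.2 ∧ (π.p r).1 ≤ a.1
  lev : ∀ r l, 1 ≤ l → l < n → D.g (π.p r).1 (π.p r).2 l ≤ D.g a.1 a.2 l + cN * z
  dir : ∀ r, Dir D n z X cN M π r
  deepA : ∀ r l, 1 ≤ l → l < n → D.g (π.p r).1 (π.p r).2 l + X ≤ D.g a.1 a.2 l
  wideA : ∀ l, 1 ≤ l → l < n → ¬ π.rk l < k → D.g a.1 a.2 l ≤ D.g π.o.1 π.o.2 l
  mono : ∀ r s, r ≤ s → (π.p r).1 ≤ (π.p s).1
  rU : ∀ r, (π.p r).1 + X / z ≤ M
  plB : PlB D n X cN z lam gam i j a.1 a.2
  plA : PlA D n X lam gam i j (i - S' * an) (j + S' * be)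
  a_lt : a.1 < M ∧ a.2 < M
  o'_lt : i - S' * an < M ∧ j + S' * be < M
  S'_pos : 1 ≤ S'

section

variable {D : NDat2} {n K J a₀ w₀ z M : ℕ} {lam gam : ℕ → ℝ} {κ C₁ c : ℝ} {q : D.Ω → ℝ}
  {X L W be cN k : ℕ} {co al : Fin k → ℕ} {an i j : ℕ}

/-- A coordinate without rank has a larger ratio. -/
theorem big_of (hV : CondV n lam gam) (hCo : CoV n lam gam co) {l : ℕ} (l1 : 1 ≤ l)
    (l2 : l < n) (h : ¬ (plc i j be co al).rk l < k) : gam n * lam l < gam l * lam n := by
  by_contra hc
  have h1 : gam l * lam n < gam n * lam l := by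
    rcases lt_or_eq_of_le (not_lt.1 hc) with h2 | h2
    · exact h2
    · exact absurd ⟨l, l1, l2, h2⟩ hV
  obtain ⟨r, hr⟩ := hCo.all l l1 l2 h1
  apply h
  have h2 := rk_co (π := plc i j be co al) hCo.inj r
  have h3 : (plc i j be co al).co r = l := hr
  rw [h3] at h2
  rw [h2]
  exact r.2

theorem plcV (hO : D.Ok2 n K J a₀ w₀ z M lam gam κ C₁ q) (hl : ∀ l, 0 < lam l)
    (hV : CondV n lam gam) (hCo : CoV n lam gam co)
    (hP : PlV n lam gam (2 * C₁ + 1) c L W be co al an) (hW : WOkV n lam C₁ cN z X W)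
    (hc : c + 2 * C₁ ≤ cN) (hi : i + an < M) (hj : j < M) (hb : be ≤ j) :
    Plc D n z X cN M (plc i j be co al) := by
  have hz : (0 : ℝ) ≤ z := Nat.cast_nonneg z
  have hbe : ((j - be : ℕ) : ℝ) = j - be := Nat.cast_sub hb
  have hwb : W * z ≤ be * z := Nat.mul_le_mul_right z hP.W_be
  have hal : ∀ r, i + al r ≤ M := fun r => by
    have := hP.gapn r
    omega
  have hcs : ∀ l, (plc i j be co al).rk l < k → ∃ s : Fin k, co s = l ∧
      (plc i j be co al).rk l = s := fun l h => of_rk h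
  have hW1 : 2 * C₁ + 1 ≤ W := hW.C
  have hcN : (0 : ℝ) ≤ cN := Nat.cast_nonneg _
  -- the differences of the levels
  have key : ∀ (r : Fin k) (l : ℕ) (x : ℝ), 1 ≤ l → l < n →
      x + 2 * C₁ ≤ lam l * al r - gam l * be →
      (D.g i j l : ℝ) + x * z ≤ D.g (i + al r) (j - be) l := by
    intro r l x l1 l2 h
    refine lvx hO (by omega) hj.le (hal r) (by omega) l1 l2.le ?_
    rw [hbe]
    push_cast
    have := mul_le_mul_of_nonneg_right h hz
    nlinarith
  have key' : ∀ (r : Fin k) (l : ℕ) (x : ℝ), 1 ≤ l → l < n →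
      lam l * al r - gam l * be + 2 * C₁ ≤ x →
      (D.g (i + al r) (j - be) l : ℝ) ≤ D.g i j l + x * z := by
    intro r l x l1 l2 h
    have h1 := lvx hO (x := -(x * z)) (hal r) (by omega) (by omega) hj.le l1 l2.le
      (i := i + al r) (j := j - be) (i' := i) (j' := j) (by
        rw [hbe]
        push_cast
        have := mul_le_mul_of_nonneg_right h hz
        nlinarith)
    linarith
  have hnat : ∀ {a b x : ℕ}, (a : ℝ) + (x : ℝ) * z ≤ b → a + x * z ≤ b := fun h => by
    exact_mod_cast h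
  have hnat' : ∀ {a b x : ℕ}, (a : ℝ) ≤ b + (x : ℝ) * z → a ≤ b + x * z := fun h => by
    exact_mod_cast h
  have hdeep1 : ∀ (r : Fin k) l, 1 ≤ l → l < n → (plc i j be co al).rk l ≤ r →
      D.g i j l + 1 * z ≤ D.g (i + al r) (j - be) l := by
    intro r l l1 l2 hr
    obtain ⟨s, hs, hs2⟩ := hcs l (lt_of_le_of_lt hr r.2)
    have hsr : s ≤ r := by
      rw [hs2] at hr
      exact hr
    refine hnat ?_
    push_cast
    rcases (hP.mono hsr).lt_or_eq with h | h
    · have h2 := hP.nar r s h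
      rw [hs] at h2
      exact key r l 1 l1 l2 (by linarith)
    · have h2 := (hP.own r s h.symm).1
      rw [hs] at h2
      exact key r l 1 l1 l2 (by linarith)
  refine
  { co_ge := hCo.ge
    co_lt := hCo.lt
    inj := hCo.inj
    o_lt := ⟨by show i < M; omega, hj⟩
    p_lt := fun r => by
      have := hP.gapn r
      show i + al r < M
      omega
    win := fun r => ?_
    same := fun r s => rfl
    deep := fun r l l1 l2 hr => ?_
    wide := fun r l l1 l2 hr => ?_
    self := fun r => ?_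
    drop := fun r s hrs => ?_ }
  · show (j - be) * z + X + z ≤ j * z
    have h1 : (j - be) * z + be * z = j * z := by
      rw [← add_mul, Nat.sub_add_cancel hb]
    have h2 := hW.win
    have h3 : (cN + 1) * z = cN * z + z := by ring
    omega
  · have h1 := hdeep1 r l l1 l2 hr
    show D.g i j l ≤ D.g (i + al r) (j - be) l
    omega
  · show D.g (i + al r) (j - be) l ≤ D.g i j l + cN * z
    by_cases hk : (plc i j be co al).rk l < k
    · obtain ⟨s, hs, hs2⟩ := hcs l hk
      have hsr : r < s := by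
        rw [hs2] at hr
        exact hr
      refine hnat' ?_
      refine key' r l cN l1 l2 ?_
      rcases (hP.mono hsr.le).lt_or_eq with h | h
      · have h2 := hP.wid r s h
        rw [hs] at h2
        linarith
      · have h2 := (hP.own r s h).2
        rw [hs] at h2
        linarith
    · have hbig := big_of (i := i) (j := j) (be := be) (al := al) hV hCo l1 l2 hk
      have h2 := hP.big l l1 l2 hbig
      refine hnat' (key' r l cN l1 l2 ?_)
      have h3 : (al r : ℝ) ≤ an := by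
        have := hP.gapn r
        exact_mod_cast (by omega : al r ≤ an)
      have h4 := mul_le_mul_of_nonneg_left h3 (hl l).le
      linarith
  · have l1 := hCo.ge r
    have l2 := hCo.lt r
    have h1 := hdeep1 r (co r) l1 l2 (rk_co (π := plc i j be co al) hCo.inj r).le
    constructor
    · show D.g i j (co r) + z ≤ D.g (i + al r) (j - be) (co r)
      omega
    · show D.g (i + al r) (j - be) (co r) ≤ D.g i j (co r) + cN * z
      refine hnat' (key' r (co r) cN l1 l2 ?_)
      have h2 := (hP.own r r rfl).2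
      linarith
  · rcases (hP.mono hrs).lt_or_eq with h | h
    · right
      intro l l1 l2
      show D.g (i + al r) (j - be) l + X ≤ D.g (i + al s) (j - be) l
      have h5 : (D.g (i + al r) (j - be) l : ℝ) + X ≤ D.g (i + al s) (j - be) l := by
        refine lvx hO (hal r) (by omega) (hal s) (by omega) l1 l2.le ?_
        have h3 : ((al r + W : ℕ) : ℝ) ≤ al s := by exact_mod_cast hP.gap r s h
        have h4 := hW.hor l l1 l2.le
        have h5 := mul_le_mul_of_nonneg_left h3 (hl l).le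
        have h6 := mul_le_mul_of_nonneg_right h5 hz
        push_cast at h6 ⊢
        nlinarith
      exact_mod_cast h5
    · left
      show ((i + al r, j - be) : ℕ × ℕ) = (i + al s, j - be)
      rw [h]

theorem plnV (hO : D.Ok2 n K J a₀ w₀ z M lam gam κ C₁ q) (hn : 1 ≤ n)
    (hV : CondV n lam gam) (hCo : CoV n lam gam co)
    (hP : PlV n lam gam (2 * C₁ + 1) c L W be co al an) (hW : WOkV n lam C₁ cN z X W)
    (hc : c + 2 * C₁ ≤ cN) (hi : i + an < M) (hj : j < M) (hb : be ≤ j) :
    Pln D n z X cN M (plc i j be co al) (i + an, j - be) ∧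
      PlB D n X cN z lam gam i j (i + an) (j - be) ∧
      (∀ l, 1 ≤ l → l < n → ¬ (plc i j be co al).rk l < k →
        D.g (i + an) (j - be) l + X ≤ D.g i j l) ∧
      ∀ l, 1 ≤ l → l < n → (plc i j be co al).rk l < k →
        D.g i j l + X ≤ D.g (i + an) (j - be) l := by
  have hz : (0 : ℝ) ≤ z := Nat.cast_nonneg z
  have hbe : ((j - be : ℕ) : ℝ) = j - be := Nat.cast_sub hb
  have hwb : W * z ≤ be * z := Nat.mul_le_mul_right z hP.W_be
  have hW1 : 2 * C₁ + 1 ≤ W := hW.C
  have hcN : (0 : ℝ) ≤ cN := Nat.cast_nonneg _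
  have hnum := hW.num
  have hsm : ∀ s : Fin k, D.g i j (co s) + X ≤ D.g (i + an) (j - be) (co s) := by
    intro s
    have h2 := hP.narn s
    have h3 : (D.g i j (co s) : ℝ) + X ≤ D.g (i + an) (j - be) (co s) := by
      refine lvx hO (by omega) hj.le hi.le (by omega) (hCo.ge s) (hCo.lt s).le ?_
      rw [hbe]
      push_cast
      have := mul_le_mul_of_nonneg_right h2 hz
      nlinarith
    exact_mod_cast h3
  have hbg : ∀ l, 1 ≤ l → l < n → gam n * lam l < gam l * lam n →
      D.g (i + an) (j - be) l + X ≤ D.g i j l := by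
    intro l l1 l2 h
    have h2 := hP.big l l1 l2 h
    have h3 : (D.g (i + an) (j - be) l : ℝ) + X ≤ D.g i j l := by
      refine lvx hO hi.le (by omega) (by omega) hj.le l1 l2.le ?_
      rw [hbe]
      push_cast
      have := mul_le_mul_of_nonneg_right h2 hz
      nlinarith
    exact_mod_cast h3
  have ht1 : D.g (i + an) (j - be) n ≤ D.g i j n := by
    have h2 := hP.tgt
    have h3 := lvx hO (x := 0) hi.le (by omega) (by omega) hj.le hn le_rfl
      (i := i + an) (j := j - be) (i' := i) (j' := j) (by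
        rw [hbe]
        push_cast
        have := mul_le_mul_of_nonneg_right h2 hz
        nlinarith)
    have h4 : (D.g (i + an) (j - be) n : ℝ) ≤ D.g i j n := by linarith
    exact_mod_cast h4
  have ht2 : D.g i j n ≤ D.g (i + an) (j - be) n + cN * z := by
    have h2 := hP.tgt'
    have h3 := lvx hO (x := -(cN * z : ℝ)) (by omega) hj.le hi.le (by omega) hn le_rfl
      (i := i) (j := j) (i' := i + an) (j' := j - be) (by
        rw [hbe]
        push_cast
        have := mul_le_mul_of_nonneg_right h2 hz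
        have := mul_le_mul_of_nonneg_right hc hz
        nlinarith)
    have h4 : (D.g i j n : ℝ) ≤ D.g (i + an) (j - be) n + cN * z := by linarith
    exact_mod_cast h4
  refine ⟨⟨hi, ?_, fun l l1 l2 h => ?_, fun l l1 l2 h => ?_, ht1, ht2⟩,
    ⟨⟨Nat.le_add_right _ _, Nat.sub_le _ _⟩, fun l l1 l2 h => ?_, hbg,
      ht1.trans (Nat.le_add_right _ _), ht2⟩, fun l l1 l2 h => ?_, fun l l1 l2 h => ?_⟩
  · show (j - be) * z + X + cN * z + z ≤ j * z
    have h1 : (j - be) * z + be * z = j * z := by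
      rw [← add_mul, Nat.sub_add_cancel hb]
    have h2 := hW.win
    have h3 : (cN + 1) * z = cN * z + z := by ring
    omega
  · obtain ⟨s, hs, -⟩ := of_rk h
    have hs' : co s = l := hs
    have := hsm s
    rw [hs'] at this
    show D.g i j l ≤ D.g (i + an) (j - be) l
    omega
  · have := hbg l l1 l2 (big_of hV hCo l1 l2 h)
    show D.g (i + an) (j - be) l ≤ D.g i j l + cN * z
    omega
  · obtain ⟨s, hs⟩ := hCo.all l l1 l2 h
    rw [← hs]
    exact hsm s
  · exact hbg l l1 l2 (big_of hV hCo l1 l2 h)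
  · obtain ⟨s, hs, -⟩ := of_rk h
    have hs' : co s = l := hs
    have := hsm s
    rwa [hs'] at this

/-- The own pair of the target. -/
theorem plaV (hO : D.Ok2 n K J a₀ w₀ z M lam gam κ C₁ q) (hn : 1 ≤ n) (hC₁ : 0 ≤ C₁)
    (hCo : CoV n lam gam co)
    (hP : PlV n lam gam (2 * C₁ + 1) c L W be co al an) (hW : WOkV n lam C₁ cN z X W) {S' : ℕ}
    (hS : 1 ≤ S') (hSX : (X : ℝ) + 2 * C₁ * z ≤ S' * z) (hi : S' * an ≤ i) (hi2 : i ≤ M)
    (hj : j + S' * be ≤ M) : PlA D n X lam gam i j (i - S' * an) (j + S' * be) := by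
  have hz : (0 : ℝ) ≤ z := Nat.cast_nonneg z
  have hS1 : (1 : ℝ) ≤ S' := by exact_mod_cast hS
  have hW1 : 2 * C₁ + 1 ≤ W := hW.C
  have hnum := hW.num
  have hi' : ((i - S' * an : ℕ) : ℝ) = i - S' * an := by
    rw [Nat.cast_sub hi]
    push_cast
    ring
  have hSz : (z : ℝ) ≤ S' * z := by nlinarith
  refine ⟨⟨Nat.sub_le _ _, Nat.le_add_right _ _⟩, fun l l1 l2 h => ?_, fun l l1 l2 h => ?_, ?_⟩
  · have h2 := hP.big l l1 l2 h
    have h3 : (D.g i j l : ℝ) + X ≤ D.g (i - S' * an) (j + S' * be) l := by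
      refine lvx hO hi2 (by omega) (by omega) hj l1 l2.le ?_
      rw [hi']
      push_cast
      have h4 : (W : ℝ) * z ≤ (gam l * be - lam l * an) * (S' * z) :=
        mul_le_mul h2 hSz hz (le_trans (Nat.cast_nonneg _) h2)
      nlinarith
    exact_mod_cast h3
  · obtain ⟨s, hs⟩ := hCo.all l l1 l2 h
    have h2 := hP.narn s
    rw [hs] at h2
    have h3 : (D.g (i - S' * an) (j + S' * be) l : ℝ) + 0 ≤ D.g i j l := by
      refine lvx hO (by omega) hj hi2 (by omega) l1 l2.le ?_
      rw [hi']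
      push_cast
      have h4 : (W : ℝ) * z ≤ (lam l * an - gam l * be) * (S' * z) :=
        mul_le_mul h2 hSz hz (le_trans (Nat.cast_nonneg _) h2)
      have hX0 : (0 : ℝ) ≤ X := Nat.cast_nonneg _
      nlinarith
    rw [add_zero] at h3
    exact_mod_cast h3
  · have h2 := hP.tgt
    have h3 : (D.g i j n : ℝ) + X ≤ D.g (i - S' * an) (j + S' * be) n := by
      refine lvx hO hi2 (by omega) (by omega) hj hn le_rfl ?_
      rw [hi']
      push_cast
      have h4 : (2 * C₁ + 1) * (S' * (z : ℝ)) ≤ (gam n * be - lam n * an) * (S' * z) :=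
        mul_le_mul_of_nonneg_right h2 (by positivity)
      have h5 : S' * (z : ℝ) ≤ (2 * C₁ + 1) * (S' * z) := by
        have : 0 ≤ 2 * C₁ * (S' * (z : ℝ)) := by positivity
        linarith
      nlinarith
    exact_mod_cast h3

/-- Deeper places in the direction of `p r`. -/
theorem dirV (hO : D.Ok2 n K J a₀ w₀ z M lam gam κ C₁ q) (hC₁ : 0 ≤ C₁)
    (hV : CondV n lam gam) (hCo : CoV n lam gam co) (hl : ∀ l, 0 < lam l)
    (hP : PlV n lam gam (2 * C₁ + 1) c L W be co al an) (hW : WOkV n lam C₁ cN z X W) {s : ℕ}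
    (hs : (X : ℝ) + 2 * C₁ * z ≤ s * z) (hi : i + (s + 1) * an < M) (hj : j < M)
    (hb : (s + 1) * be ≤ j) (r : Fin k) : Dir D n z X cN M (plc i j be co al) r := by
  classical
  have hz : (0 : ℝ) ≤ z := Nat.cast_nonneg z
  have hb1 : be ≤ j := (Nat.le_mul_of_pos_left be (by omega)).trans hb
  have hsb : (s + 1) * be = s * be + be := by ring
  have hsa : (s + 1) * an = s * an + an := by ring
  have hal : al r ≤ an := by
    have := hP.gapn r
    omega
  have hsal : s * al r ≤ s * an := Nat.mul_le_mul_left _ hal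
  have hbe : ((j - be : ℕ) : ℝ) = j - be := Nat.cast_sub hb1
  have hbe2 : ((j - be - s * be : ℕ) : ℝ) = j - be - s * be := by
    rw [Nat.cast_sub (by omega), hbe]
    push_cast
    ring
  have hW1 : 2 * C₁ + 1 ≤ W := hW.C
  have hnum := hW.num
  refine ⟨al r, be, s, univ.filter (fun l : Fin (n - 1) => ¬ ∃ t, co t = (l : ℕ) + 1 ∧
    al t ≤ al r), Nat.le_add_left _ _, ?_, ?_, ?_, fun l hr => ?_, fun l hr => ?_, fun l hr => ?_⟩
  · show ((i, j) : ℕ × ℕ) = (i + al r - al r, j - be + be)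
    rw [Nat.add_sub_cancel, Nat.sub_add_cancel hb1]
  · show i + al r + s * al r < M
    omega
  · show s * be ≤ j - be
    omega
  · rw [mem_filter]
    rintro ⟨-, h⟩
    apply h
    obtain ⟨t, ht, ht2⟩ := of_rk (π := plc i j be co al) (lt_of_le_of_lt hr r.2)
    refine ⟨t, ht, hP.mono ?_⟩
    rw [ht2] at hr
    exact hr
  · rw [mem_filter] at hr
    push Not at hr
    obtain ⟨t, ht, ht2⟩ := hr (mem_univ _)
    have h2 : 2 * C₁ + 1 ≤ lam (co t) * al r - gam (co t) * be := by
      rcases ht2.lt_or_eq with h | h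
      · exact hW1.trans (hP.nar r t h)
      · exact (hP.own r t h.symm).1
    show D.g (i + al r) (j - be) (l + 1) + X ≤
      D.g (i + al r + s * al r) (j - be - s * be) (l + 1) + cN * z
    have h3 : (D.g (i + al r) (j - be) (l + 1) : ℝ) + X ≤
        D.g (i + al r + s * al r) (j - be - s * be) (l + 1) := by
      refine lvx hO (by omega) (by omega) (by omega) (by omega) (by omega) (by
        have := l.2
        omega) ?_
      rw [hbe2, hbe, ← ht]
      push_cast
      have h4 : (2 * C₁ + 1) * (s * (z : ℝ)) ≤ (lam (co t) * al r - gam (co t) * be) * (s * z) :=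
        mul_le_mul_of_nonneg_right h2 (by positivity)
      have h5 : s * (z : ℝ) ≤ (2 * C₁ + 1) * (s * z) := by
        have : 0 ≤ 2 * C₁ * (s * (z : ℝ)) := by positivity
        linarith
      nlinarith
    have h6 : D.g (i + al r) (j - be) (l + 1) + X ≤
        D.g (i + al r + s * al r) (j - be - s * be) (l + 1) := by exact_mod_cast h3
    omega
  · rw [mem_filter] at hr
    have hl2 := l.2
    show D.g (i + al r) (j - be) (l + 1) + X ≤ D.g i j (l + 1) + cN * z
    have h2 : (W : ℝ) ≤ gam (l + 1) * be - lam (l + 1) * al r := by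
      by_cases hk : (plc i j be co al).rk (l + 1) < k
      · obtain ⟨t, ht, ht2⟩ := of_rk hk
        have ht' : co t = (l : ℕ) + 1 := ht
        have h4 : al r < al t := by
          by_contra hc
          exact hr.2 ⟨t, ht', not_lt.1 hc⟩
        have h5 := hP.wid r t h4
        rwa [ht'] at h5
      · have h4 := hP.big (l + 1) (by omega) (by omega)
          (big_of (i := i) (j := j) (be := be) (al := al) hV hCo (by omega) (by omega) hk)
        have h3 : (al r : ℝ) ≤ an := by exact_mod_cast hal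
        have h5 := mul_le_mul_of_nonneg_left h3 (hl ((l : ℕ) + 1)).le
        linarith
    have h3 : (D.g (i + al r) (j - be) (l + 1) : ℝ) + X ≤ D.g i j (l + 1) := by
      refine lvx hO (by omega) (by omega) (by omega) (by omega) (by omega) (by omega) ?_
      rw [hbe]
      push_cast
      have := mul_le_mul_of_nonneg_right h2 hz
      nlinarith
    have h6 : D.g (i + al r) (j - be) (l + 1) + X ≤ D.g i j (l + 1) := by exact_mod_cast h3
    omega

end

/-- Fewer digits. -/
theorem GeoV.anti {D : NDat2} {n z X X' cN M : ℕ} {lam gam : ℕ → ℝ} {i j k : ℕ} {π : Pls k}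
    {a : ℕ × ℕ} {an be s S' : ℕ} (h : GeoV D n z X cN M lam gam i j π a an be s S')
    (hX : X' ≤ X) : GeoV D n z X' cN M lam gam i j π a an be s S' := by
  have hXz : X' / z ≤ X / z := Nat.div_le_div_right hX
  exact
  { o := h.o
    plc :=
    { h.plc with
      win := fun r => by
        have := h.plc.win r
        omega
      drop := fun r s hrs => by
        rcases h.plc.drop r s hrs with h1 | h1
        · exact Or.inl h1
        · refine Or.inr fun l l1 l2 => ?_
          have := h1 l l1 l2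
          omega }
    pln :=
    { h.pln with
      win := by
        have := h.pln.win
        omega }
    a_eq := h.a_eq
    be_le := h.be_le
    o1 := h.o1
    o2 := h.o2
    r1 := h.r1
    r2 := h.r2
    rA := by
      have := h.rA
      omega
    nar := fun l l1 l2 hl => by
      have := h.nar l l1 l2 hl
      omega
    wid := fun l l1 l2 hl => by
      have := h.wid l l1 l2 hl
      omega
    hor := h.hor
    lev := h.lev
    dir := fun r => by
      obtain ⟨a, b, s, F, h1, h2, h3, h4, h5, h6, h7⟩ := h.dir r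
      refine ⟨a, b, s, F, h1, h2, h3, h4, h5, fun l hl => ?_, fun l hl => ?_⟩
      · have := h6 l hl
        omega
      · have := h7 l hl
        omega
    deepA := fun r l l1 l2 => by
      have := h.deepA r l l1 l2
      omega
    wideA := h.wideA
    mono := h.mono
    rU := fun r => by
      have := h.rU r
      omega
    plB :=
    { h.plB with
      small := fun l l1 l2 hl => by
        have := h.plB.small l l1 l2 hl
        omega
      big := fun l l1 l2 hl => by
        have := h.plB.big l l1 l2 hl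
        omega }
    plA :=
    { h.plA with
      big := fun l l1 l2 hl => by
        have := h.plA.big l l1 l2 hl
        omega
      tgt := by
        have := h.plA.tgt
        omega }
    a_lt := h.a_lt
    o'_lt := h.o'_lt
    S'_pos := h.S'_pos }

/-- The room, as a function of the number of steps. -/
def rfV (A : ℕ) (N : ℕ) : ℕ := A * (N + 2) ^ 2

/-- **The places exist**, `X ≤ N z`. -/
theorem exists_geoV (n : ℕ) (lam gam : ℕ → ℝ) (C₁ : ℝ) (hn : 1 ≤ n) (hC₁ : 0 ≤ C₁)
    (hl : ∀ l, 0 < lam l) (hgam : ∀ l, 0 ≤ gam l) (hgn : 0 < gam n) (hV : CondV n lam gam) :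
    ∃ (k : ℕ) (co : Fin k → ℕ) (cN A : ℕ), CoV n lam gam co ∧
    ∀ (K J a₀ w₀ z M N X i j : ℕ) (κ : ℝ) (D : NDat2) (q : D.Ω → ℝ), 1 ≤ z → X ≤ N * z →
      rfV A N ≤ i → i + rfV A N ≤ M → rfV A N ≤ j → j + rfV A N ≤ M →
      D.Ok2 n K J a₀ w₀ z M lam gam κ C₁ q →
      ∃ (π : Pls k) (a : ℕ × ℕ) (an be s S' : ℕ), π.co = co ∧
        GeoV D n z X cN M lam gam i j π a an be s S' := by
  obtain ⟨k, co, c, L, hCo, hnum⟩ := exists_plv n lam gam hl hgam hgn (2 * C₁ + 1) (by linarith)
  obtain ⟨cN, hcN⟩ := exists_nat_ge (c + 2 * C₁)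
  obtain ⟨A₀, hA₀⟩ := exists_wokV n lam hl C₁ hC₁ cN
  obtain ⟨N₁, hN₁⟩ := exists_nat_ge (2 * C₁)
  refine ⟨k, co, cN, 4 * (N₁ + 2) * (L + 1) * (A₀ + 1), hCo, ?_⟩
  intro K J a₀ w₀ z M N X i j κ D q hz hXN hi1 hi2 hj1 hj2 hO
  obtain ⟨t, ht⟩ : ∃ t, t = X / z + 1 := ⟨_, rfl⟩
  have htN : t ≤ N + 1 := by
    rw [ht]
    have : X / z ≤ N := Nat.div_le_of_le_mul (by rw [Nat.mul_comm]; exact hXN)
    omega
  have hW := hA₀ z X hz
  rw [← ht] at hW
  obtain ⟨be, al, an, hP⟩ := hnum (A₀ * t)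
  obtain ⟨s, hs⟩ : ∃ s, s = t + N₁ := ⟨_, rfl⟩
  have hsX : (X : ℝ) + 2 * C₁ * z ≤ s * z := by
    have hXt : X ≤ t * z := by
      rw [ht]
      have h1 := Nat.div_add_mod X z
      have h2 := Nat.mod_lt X (show 0 < z by omega)
      have h3 : (X / z + 1) * z = z * (X / z) + z := by ring
      omega
    have h1 : (X : ℝ) ≤ t * z := by exact_mod_cast hXt
    have h2 : 2 * C₁ * (z : ℝ) ≤ N₁ * z := mul_le_mul_of_nonneg_right hN₁ (Nat.cast_nonneg _)
    rw [hs]
    push_cast
    linarith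
  -- the room
  obtain ⟨R, hR⟩ : ∃ R, R = rfV (4 * (N₁ + 2) * (L + 1) * (A₀ + 1)) N := ⟨_, rfl⟩
  rw [← hR] at hi1 hi2 hj1 hj2
  have hLW : L * (A₀ * t + 1) ≤ (L + 1) * (A₀ + 1) * (N + 2) := by
    have h1 : A₀ * t + 1 ≤ (A₀ + 1) * (N + 2) := by
      have : A₀ * t ≤ A₀ * (N + 1) := Nat.mul_le_mul_left _ htN
      nlinarith
    calc L * (A₀ * t + 1) ≤ (L + 1) * ((A₀ + 1) * (N + 2)) := Nat.mul_le_mul (by omega) h1
      _ = _ := by ring
  have hss : s + 2 ≤ 2 * (N₁ + 2) * (N + 2) := by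
    rw [hs]
    nlinarith
  have hroom : ∀ x, x ≤ L * (A₀ * t + 1) → (s + 2) * x + (N + 1) < R := by
    intro x hx
    have h1 : (s + 2) * x ≤ 2 * (N₁ + 2) * (N + 2) * ((L + 1) * (A₀ + 1) * (N + 2)) :=
      Nat.mul_le_mul hss (hx.trans hLW)
    have h2 : R = 2 * (2 * (N₁ + 2) * (N + 2) * ((L + 1) * (A₀ + 1) * (N + 2))) := by
      rw [hR]
      unfold rfV
      ring
    have h3 : N + 2 ≤ 2 * (N₁ + 2) * (N + 2) * ((L + 1) * (A₀ + 1) * (N + 2)) := by
      have h4 : 1 ≤ 2 * (N₁ + 2) * (N + 2) := by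
        have : 1 ≤ (N₁ + 2) * (N + 2) := Nat.mul_pos (by omega) (by omega)
        have e : 2 * (N₁ + 2) * (N + 2) = 2 * ((N₁ + 2) * (N + 2)) := by ring
        omega
      have h5 : N + 2 ≤ (L + 1) * (A₀ + 1) * (N + 2) :=
        Nat.le_mul_of_pos_left _ (Nat.mul_pos (by omega) (by omega))
      calc N + 2 = 1 * (N + 2) := (Nat.one_mul _).symm
        _ ≤ _ := Nat.mul_le_mul h4 h5
    omega
  have ran := hroom an hP.an_le
  have rbe := hroom be hP.be_le
  have e1 : (s + 2) * an = s * an + 2 * an := by ring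
  have e2 : (s + 2) * be = s * be + 2 * be := by ring
  have e3 : (s + 1) * an = s * an + an := by ring
  have e4 : (s + 1) * be = s * be + be := by ring
  have hcN' : c + 2 * C₁ ≤ cN := hcN
  have hi : i + an < M := by omega
  have hj : j < M := by omega
  have hb : be ≤ j := by omega
  have hs1 : 1 ≤ s := by
    have h1 : 1 ≤ t := by rw [ht]; exact Nat.le_add_left 1 _
    omega
  have hplc := plcV hO hl hV hCo hP hW hcN' hi hj hb
  obtain ⟨hpln, hplB, hbg, hsm⟩ := plnV hO hn hV hCo hP hW hcN' hi hj hb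
  have hplA := plaV (i := i) (j := j) hO hn hC₁ hCo hP hW (S' := s) hs1 hsX (by omega) (by omega) (by omega)
  have hX0 : X / z ≤ N := Nat.div_le_of_le_mul (by rw [Nat.mul_comm]; exact hXN)
  have hz0 : (0 : ℝ) ≤ z := Nat.cast_nonneg z
  have hbeR : ((j - be : ℕ) : ℝ) = j - be := Nat.cast_sub hb
  have hdA : ∀ r l, 1 ≤ l → l < n → D.g (i + al r) (j - be) l + X ≤
      D.g (i + an) (j - be) l := by
    intro r l l1 l2
    have h3 : ((al r + A₀ * t : ℕ) : ℝ) ≤ an := by exact_mod_cast hP.gapn r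
    have h4 := hW.hor l l1 l2.le
    have h7 := hP.gapn r
    have h5 : (D.g (i + al r) (j - be) l : ℝ) + X ≤ D.g (i + an) (j - be) l := by
      refine lvx hO (by omega) (by omega) (by omega) (by omega) l1 l2.le ?_
      have h5 := mul_le_mul_of_nonneg_left h3 (hl l).le
      have h6 := mul_le_mul_of_nonneg_right h5 hz0
      push_cast at h4 h6 ⊢
      nlinarith
    exact_mod_cast h5
  have hdir := fun r => dirV hO hC₁ hV hCo hl hP hW hsX (by omega : i + (s + 1) * an < M) hj
    (by omega : (s + 1) * be ≤ j) r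
  have hnarn : ∀ l, 1 ≤ l → l < n → (plc i j be co al).rk l < k →
      D.g (i + an) (j - be) l + X ≤ D.g (i + an + s * an) (j - be - s * be) l + cN * z := by
    intro l l1 l2 h
    obtain ⟨u, hu, -⟩ := of_rk h
    have hu' : co u = l := hu
    have h2 := hP.narn u
    rw [hu'] at h2
    have hbe2 : ((j - be - s * be : ℕ) : ℝ) = j - be - s * be := by
      rw [Nat.cast_sub (by omega), hbeR]
      push_cast
      ring
    have h3 : (D.g (i + an) (j - be) l : ℝ) + X ≤
        D.g (i + an + s * an) (j - be - s * be) l := by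
      refine lvx hO (by omega) (by omega) (by omega) (by omega) l1 l2.le ?_
      rw [hbe2, hbeR]
      push_cast
      have hs1r : (1 : ℝ) ≤ s := by exact_mod_cast hs1
      have hsz : (z : ℝ) ≤ s * z := by nlinarith
      have h4 : ((A₀ * t : ℕ) : ℝ) * z ≤ (lam l * an - gam l * be) * (s * z) :=
        mul_le_mul h2 hsz hz0 (le_trans (Nat.cast_nonneg _) h2)
      have h6 := hW.num
      nlinarith
    have h6 : D.g (i + an) (j - be) l + X ≤ D.g (i + an + s * an) (j - be - s * be) l := by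
      exact_mod_cast h3
    omega
  refine ⟨plc i j be co al, (i + an, j - be), an, be, s, s, rfl, ?_⟩
  exact
  { o := rfl
    plc := hplc
    pln := hpln
    a_eq := rfl
    be_le := hb
    o1 := by show s * an ≤ i; omega
    o2 := by show j + s * be < M; omega
    r1 := by show i + an + s * an < M; omega
    r2 := by show s * be ≤ j - be; omega
    rA := by show i + an + X / z ≤ M; omega
    nar := hnarn
    wid := fun l l1 l2 h => by
      have := hbg l l1 l2 h
      show D.g (i + an) (j - be) l + X ≤ D.g i j l + cN * z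
      omega
    hor := fun r => ⟨rfl, by
      have := hP.gapn r
      show i + al r ≤ i + an
      omega⟩
    lev := fun r l l1 l2 => by
      have := hdA r l l1 l2
      show D.g (i + al r) (j - be) l ≤ D.g (i + an) (j - be) l + cN * z
      omega
    dir := hdir
    deepA := hdA
    wideA := fun l l1 l2 h => by
      have := hbg l l1 l2 h
      show D.g (i + an) (j - be) l ≤ D.g i j l
      omega
    mono := fun r u h => by
      have := hP.mono h
      show i + al r ≤ i + al u
      omega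
    rU := fun r => by
      have := hP.gapn r
      show i + al r + X / z ≤ M
      omega
    plB := hplB
    plA := hplA
    a_lt := ⟨hi, by show j - be < M; omega⟩
    o'_lt := ⟨by omega, by omega⟩
    S'_pos := hs1 }

end Pool.VAS
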