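import Pool.Agent.H88.VAS.Frv
import Pool.Agent.H88.VAS.LevV
import Pool.Agent.H19.VAS.H5U
import Pool.Agent.H12.MICA.Chart

/-!
# The visible side on an event of the output of STEP V

`two_of`: two samples of one exact point, one of them with a frame. `visD_of`: the data `VisD` for the
law of STEP V on an event all samples of which have frames.
-/

set_option autoImplicit false

namespace Pool.VAS

open Finset MvPolynomial Real
open Pool.Agent.H49.Ent Pool.Agent.H32.Dense Pool.STK Pool.STAT Pool.MIC Pool.MicA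
open Pool.BFL (Pl Pb)
open Pool.TIE (SubL CH_event full_event)
open Pool.GSD (Fra ztS YpS nuS sd_line)

/-- **Two samples of one exact point.** -/
theorem two_of (n K' : ℕ) (lam : ℕ → ℝ) (hl : ∀ l, 0 < lam l) (C C₁ : ℝ) (hC : 0 ≤ C)
    (hC₁ : 0 ≤ C₁) : ∃ A₀ : ℕ, ∀ (D : NDat2) (K J a₀ w₀ z M i j X : ℕ) (gam : ℕ → ℝ) (κ : ℝ)
    (q : D.Ω → ℝ) (ω ω' : D.Ω), K ≤ K' → 1 ≤ z → i + A₀ * (X / z + 1) < M → j < M →
    D.Ok2 n K J a₀ w₀ z M lam gam κ C₁ q → Fra D n K' M z C ω → 0 < q ω → 0 < q ω' →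
    D.pt ω = D.pt ω' → ∀ l, 1 ≤ l → l ≤ n →
      |ztS D i j (D.Ψ i j) ω l - ztS D i j (D.Ψ i j) ω' l| ≤ 1 / 2 ^ X := by
  obtain ⟨B, -, hB⟩ := frv n K' C hC 0
  obtain ⟨A₀, hA₀⟩ := exists_wokV n lam hl (C₁ + B) (by positivity) 0
  refine ⟨A₀, ?_⟩
  intro D K J a₀ w₀ z M i j X gam κ q ω ω' hK hz hi hj hO hF hω hω' hpt
  have hi' : i < M := (Nat.le_add_right _ _).trans_lt hi
  obtain ⟨-, -, -, -, f5⟩ := hB D K z M i j ω hK hz hi' hj hO.G_tri hO.G_deg hF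
    (sd_line hO hi'.le hj.le hω)
  have hW := hA₀ z X hz
  refine f5 (i + A₀ * (X / z + 1)) j X ω' hi hj (fun l l1 l2 => ?_) ?_ ?_ fun l l1 l2 => ?_
  · have h1 := hW.hor l l1 l2
    have h2 : (D.g i j l : ℝ) + (X + B * z) ≤ D.g (i + A₀ * (X / z + 1)) j l := by
      refine lvx hO hi'.le hj.le hi.le hj.le l1 l2 ?_
      push_cast
      push_cast at h1
      have h3 : (0 : ℝ) ≤ B * z := by positivity
      linarith
    have h4 : D.g i j l + (X + B * z) ≤ D.g (i + A₀ * (X / z + 1)) j l := by exact_mod_cast h2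
    omega
  · rw [hO.X_zero ω, hO.X_zero ω', hO.pt_T ω ω' hω hω' hpt]
  · show D.G i j (D.s i j ω') = D.G i j (D.s i j ω)
    rw [hO.s_pt i hi'.le j hj.le ω ω' hω hω' hpt]
  · have h1 := hO.pos (i + A₀ * (X / z + 1)) hi.le j hj.le ω' hω' l l1 l2
    have h2 : D.Ψ (i + A₀ * (X / z + 1)) j ω' = D.Ψ (i + A₀ * (X / z + 1)) j ω := by
      show D.G _ j (D.s _ j ω') = D.G _ j (D.s _ j ω)
      rw [hO.s_pt _ hi.le j hj.le ω ω' hω hω' hpt]
    unfold NDat2.sh at h1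
    rwa [h2] at h1

/-- **The visible side on an event.** -/
theorem visD_of (n K' Kf B : ℕ) (lam : ℕ → ℝ) (C C₁ h p₁ : ℝ) (hn : 1 ≤ n) (hB : 1 ≤ B)
    (hl : ∀ l, 0 < lam l) (hC : 0 ≤ C) (hC₁ : 0 ≤ C₁) (hh : 0 < h) (hh1 : h ≤ 1) (hp₁ : 0 < p₁) :
    ∃ (A₀ H₀ z₀ : ℕ) (ϖ : ℝ), 0 < ϖ ∧
    ∀ (D : NDat2) (K J a₀ w₀ z M i j X : ℕ) (gam : ℕ → ℝ) (κ c₁ p θ bb : ℝ) (q : D.Ω → ℝ)
      (Om : Type) [Fintype Om] (P : Om → ℝ) (f : Om → D.Ω) (G : Om → Pl (n - 1)) (E : Om → Prop),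
      K ≤ Kf → z₀ ≤ z → D.Ok2 n K J a₀ w₀ z M lam gam κ C₁ q → D.NF n z M B gam h C₁ ϖ q →
      i + A₀ * (X / z + 1) < M → j < M → (((X / z : ℕ) : ℝ) + 1) ≤ gam n * (M - j) → H₀ * z ≤ X →
      VSt D n z i j X K' q c₁ θ bb P f G → 0 < c₁ → 0 < p → p ≤ Pb P E → p₁ ≤ c₁ * p → 0 ≤ θ →
      (∀ v, 0 < P v → E v → Fra D n Kf M z C (f v)) →
      VisD D n z i j X K' (cond P E True) f G ((θ + 1) / p) bb (h / (16 * B)) := by
  classical
  obtain ⟨A₀, hA₀⟩ := two_of n Kf lam hl C C₁ hC hC₁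
  obtain ⟨H₀, z₀, ϖ, hϖ, hnf⟩ := nf_vis n B C₁ h p₁ hn hB hh hh1 hp₁
  refine ⟨A₀ + 1, H₀, max z₀ 1, ϖ, hϖ, ?_⟩
  intro D K J a₀ w₀ z M i j X gam κ c₁ p θ bb q Om _ P f G E hK hz hO hNF hi hj hgam hX hV hc₁ hp
    hE hp₁p hθ hF
  have hz1 : 1 ≤ z := (le_max_right _ _).trans hz
  have hA : (A₀ + 1) * (X / z + 1) = A₀ * (X / z + 1) + (X / z + 1) := by ring
  have hi2 : i + A₀ * (X / z + 1) < M :=
    (Nat.add_le_add_left (by rw [hA]; exact Nat.le_add_right _ _) i).trans_lt hi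
  have hi3 : i + (X / z + 1) ≤ M :=
    (Nat.add_le_add_left (by rw [hA]; exact Nat.le_add_left _ _) i).trans hi.le
  have hi' : i < M := (Nat.le_add_right _ _).trans_lt hi
  have hP := hV.sub.isLaw
  have hPE : 0 < Pb P E := hp.trans_le hE
  have hsub := sub_cond hc₁ hV.sub hE hp
  have hpos : ∀ v, 0 < cond P E True v → 0 < P v ∧ E v := fun v hv => by
    have h1 := (cond_pos_iff hP.nonneg _ True v).1 hv
    exact ⟨h1.1, by simpa using h1.2⟩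
  have hq : ∀ v, 0 < P v → 0 < q (f v) := fun v hv => sub_pos hc₁ hV.sub hv
  have hle : (θ + 1) / Pb P E ≤ (θ + 1) / p :=
    div_le_div_of_nonneg_left (by linarith) hp hE
  have hzs : ∀ v, 0 < P v → ∀ l, 1 ≤ l → l ≤ n → |ztS D i j (D.Ψ i j) (f v) l| ≤ 1 :=
    fun v hv l h1 h2 => zs_le hO hi'.le hj.le (hq v hv) h1 h2
  refine ⟨hsub.isLaw, ?_, ?_, ?_, hV.deg, hV.cf, ?_, ?_, ?_⟩
  · intro v v' hv hv' e
    have h1 := hq v (hpos v hv).1
    have h2 := hq v' (hpos v' hv').1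
    show zv D i j (f v) = zv D i j (f v')
    unfold zv
    rw [hO.s_pt i hi'.le j hj.le _ _ h1 h2 e, hO.s_pt 0 (Nat.zero_le _) j hj.le _ _ h1 h2 e,
      hO.pt_T _ _ h1 h2 e]
  · intro v v' hv hv' e
    exact hA₀ D K J a₀ w₀ z M i j X gam κ q (f v) (f v') hK hz1 hi2 hj hO
      (hF v (hpos v hv).1 (hpos v hv).2) (hq v (hpos v hv).1) (hq v' (hpos v' hv').1) e
  · intro v hv
    exact hzs v (hpos v hv).1
  · refine (CH_event hP G _ _ hPE).trans (le_trans ?_ hle)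
    exact div_le_div_of_nonneg_right (hV.few.trans (by linarith)) hPE.le
  · have h1 := full_event hP (fun v => YpS D n z i j X (D.Ψ i j) (f v))
      (fun v => (hT D n z i j X (G v) (f v), (G v, zv D i j (f v))))
      E hPE (M := ((n - 1 : ℕ) : ℝ) * (X * Real.log 2)) (θ := θ)
      (fun r hr hr' => CH_dig hr _ _ fun v hv l => YpS_lt (hzs v (hr' v hv)) l) hV.full
    have h2 : (θ + Real.log 2) / Pb P E ≤ (θ + 1) / Pb P E := by
      have := log2_bd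
      exact div_le_div_of_nonneg_right (by linarith) hPE.le
    linarith
  · have h1 : SubL q p₁ (cond P E True) f := hsub.mono hp₁p
    refine hnf D K J a₀ w₀ z M lam gam κ q hO hNF ((le_max_left _ _).trans hz) i j X hi3
      hj.le hgam hX Om (cond P E True) f h1

end Pool.VAS
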