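import Pool.Agent.H88.VAS.EvVo
import Pool.Agent.H88.VAS.Vis2
import Pool.Agent.H88.TIE.GluW
import Pool.Agent.H88.LSH.OutT
import Pool.Agent.H19.VAS.VisL
import Pool.Agent.H41.GSD.Gev

/-!
# The local theorem without ties

`mic_locV`: from STEP V with matching in a cell and the middle.
-/

set_option autoImplicit false

namespace Pool.VAS

open Finset MvPolynomial Real
open Pool.Agent.H49.Ent Pool.Agent.H32.Dense Pool.STK Pool.STAT Pool.MIC Pool.MicA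
open Pool.BFL (Pl Pb)
open Pool.TIE (SubL)
open Pool.GSD (Fra frm_ev)
open Pool.LSH (LdF)
open Pool.STAT.Glu (hnω hnat_deg hnat_vars cell_det wn_det detF Pb_and_ge)

theorem fin_min (f : ℕ → ℝ) (hf : ∀ x, 0 < f x) (N : ℕ) :
    ∃ κ : ℝ, 0 < κ ∧ ∀ x ≤ N, κ ≤ f x := by
  induction N with
  | zero => exact ⟨f 0, hf 0, fun x hx => by rw [Nat.le_zero.1 hx]⟩
  | succ N ih =>
    obtain ⟨κ, h1, h2⟩ := ih
    refine ⟨min κ (f (N + 1)), lt_min h1 (hf _), fun x hx => ?_⟩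
    rcases Nat.lt_or_ge x (N + 1) with h | h
    · exact (min_le_left _ _).trans (h2 x (by omega))
    · have e : x = N + 1 := by omega
      rw [e]
      exact min_le_right _ _

theorem fin_max (f : ℕ → ℕ) (N : ℕ) : ∃ z : ℕ, ∀ x ≤ N, f x ≤ z := by
  induction N with
  | zero => exact ⟨f 0, fun x hx => by rw [Nat.le_zero.1 hx]⟩
  | succ N ih =>
    obtain ⟨z, h2⟩ := ih
    refine ⟨max z (f (N + 1)), fun x hx => ?_⟩
    rcases Nat.lt_or_ge x (N + 1) with h | h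
    · exact (h2 x (by omega)).trans (le_max_left _ _)
    · have e : x = N + 1 := by omega
      rw [e]
      exact le_max_right _ _

/-! ### Accuracies -/

theorem half_pow (R : ℕ) : (1 : ℝ) / 2 ^ R = 1 / 2 ^ (R + 1) + 1 / 2 ^ (R + 1) := by
  rw [pow_succ]
  field_simp
  norm_num

theorem pow_div_le {x s R : ℕ} (h : x + R ≤ s) : (2 : ℝ) ^ x / 2 ^ s ≤ 1 / 2 ^ R := by
  rw [div_le_div_iff₀ (by positivity) (by positivity), one_mul, ← pow_add]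
  exact pow_le_pow_right₀ (by norm_num) h

theorem acc1 {n am x s R : ℕ} (h1 : n + 3 + R ≤ am) (h2 : x + (R + 1) ≤ s) :
    4 * (n : ℝ) / 2 ^ am + 2 ^ x / 2 ^ s ≤ 1 / 2 ^ R := by
  rw [half_pow]
  refine add_le_add ?_ (pow_div_le h2)
  have hn : (n : ℝ) ≤ 2 ^ n := by exact_mod_cast Nat.lt_two_pow_self.le
  have h3 : 4 * (n : ℝ) ≤ 2 ^ (n + 2) := by
    rw [pow_add]
    linarith
  refine (div_le_div_of_nonneg_right h3 (by positivity)).trans (pow_div_le (by omega))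

theorem acc2 {a x t s R : ℕ} {y : ℝ} (h1 : (a : ℝ) + y + (R + 1) ≤ t) (h2 : x + (R + 1) ≤ s) :
    2 ^ a * (2 : ℝ) ^ y / 2 ^ t + 2 ^ x / 2 ^ s ≤ 1 / 2 ^ R := by
  rw [half_pow]
  refine add_le_add ?_ (pow_div_le h2)
  rw [div_le_div_iff₀ (by positivity) (by positivity), one_mul]
  rw [← Real.rpow_natCast 2 a, ← Real.rpow_natCast 2 (R + 1), ← Real.rpow_natCast 2 t,
    ← Real.rpow_add (by norm_num), ← Real.rpow_add (by norm_num)]
  refine Real.rpow_le_rpow_of_exponent_le (by norm_num) ?_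
  push_cast
  linarith

/-- **The local theorem without ties.** -/
theorem mic_locV (hVT : VTopStmt CondV) (hMid : MidVStmt) : MicLoc LdF CondV := by
  classical
  intro n K Ag B lam gam C₁ h hn hB hlam hgam hgn hC₁ hh hh1 hQ
  have hl0 : ∀ l, 0 < lam l := by
    first
      | exact fun l => lt_of_lt_of_le one_pos (hlam l)
      | exact fun l => hlam.1 l
  have hC₁0 : 0 ≤ C₁ := by linarith
  obtain ⟨K', σ, Ca, hσ, hσB, hCa, hV⟩ := hVT n K B lam gam C₁ h hn hB hlam hgam hgn hC₁ hh hh1 hQ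
  have hBR : (1 : ℝ) ≤ B := by exact_mod_cast hB
  have hσ1 : σ ≤ 1 := by nlinarith
  obtain ⟨V, hVn⟩ := exists_nat_ge (lam n + gam n)
  obtain ⟨A₂, a, K₂, c₂, haV, hc₂, hM⟩ := hMid n K K' V B lam gam C₁ h σ Ca hn hB hl0 hgam hgn hC₁
    hh hh1 hσ hσB hCa hQ
  obtain ⟨Kf, Cf, hKf, hCf, hfr⟩ := frm_ev n K lam gam C₁ hC₁
  obtain ⟨B₀, hB₀⟩ := exists_nat_ge (2 * C₁)
  obtain ⟨Bf, cf, hBf, hev⟩ := evV_of n Kf K' Cf hn hCf B₀
  obtain ⟨Cg, Kg, C₂, hglu⟩ := Pool.GLV.gluS n K K₂ (K + K' * (K + 1)) Bf C₁ hn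
  obtain ⟨Cv, hCv, hvis⟩ := visL n K'
  obtain ⟨η, hη⟩ : ∃ η : ℝ, η = h / (16 * B) := ⟨_, rfl⟩
  have hη0 : 0 < η := by rw [hη]; positivity
  obtain ⟨σv, εv, Xv, hσv, hεv, hvis⟩ := hvis η hη0
  obtain ⟨kg, cog, cN, Ap, -, hgeo⟩ := exists_geoV n lam gam C₁ hn hC₁0 hl0 hgam hgn hQ
  -- `δ`
  obtain ⟨δ, hδ⟩ : ∃ δ : ℝ, δ = min (min (σ / (4 * (a + 1))) (σv / (4 * (a + 1)))) 1 := ⟨_, rfl⟩
  have ha0 : (0 : ℝ) ≤ a := Nat.cast_nonneg _
  have hδ0 : 0 < δ := by rw [hδ]; exact lt_min (lt_min (by positivity) (by positivity)) one_pos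
  have hδ1 : δ ≤ 1 := by rw [hδ]; exact min_le_right _ _
  have hδσ : a * δ ≤ σ / 4 := by
    have h1 : δ ≤ σ / (4 * (a + 1)) := by
      rw [hδ]; exact (min_le_left _ _).trans (min_le_left _ _)
    rw [le_div_iff₀ (by positivity)] at h1
    linarith
  have hδv : a * δ ≤ σv / 4 := by
    have h1 : δ ≤ σv / (4 * (a + 1)) := by
      rw [hδ]; exact (min_le_left _ _).trans (min_le_right _ _)
    rw [le_div_iff₀ (by positivity)] at h1
    linarith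
  obtain ⟨ε₀, δ', hε₀, hδ', hM⟩ := hM δ hδ0
  -- `ε`
  obtain ⟨p, hp⟩ : ∃ p : ℝ, p = c₂ / 2 := ⟨_, rfl⟩
  have hp0 : 0 < p := by rw [hp]; positivity
  have hCg0 : (0 : ℝ) ≤ Cg := Nat.cast_nonneg _
  have hCv0 : 0 < Cv := by linarith
  obtain ⟨ε, hε⟩ : ∃ ε : ℝ, ε = min (min ε₀ (min εv (εv * p / 2)))
      (min (σ / (4 * (Ca + 1))) (δ' * (p * η) / (2 * (Cg * Cv + 1)))) := ⟨_, rfl⟩
  have hε0 : 0 < ε := by
    rw [hε]
    exact lt_min (lt_min hε₀ (lt_min hεv (by positivity))) (lt_min (by positivity) (by positivity))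
  have e1 : ε ≤ ε₀ := by rw [hε]; exact (min_le_left _ _).trans (min_le_left _ _)
  have e2 : ε ≤ εv := by
    rw [hε]; exact (min_le_left _ _).trans ((min_le_right _ _).trans (min_le_left _ _))
  have e3 : ε ≤ εv * p / 2 := by
    rw [hε]; exact (min_le_left _ _).trans ((min_le_right _ _).trans (min_le_right _ _))
  have e4 : Ca * ε ≤ σ / 4 := by
    have h1 : ε ≤ σ / (4 * (Ca + 1)) := by
      rw [hε]; exact (min_le_right _ _).trans (min_le_left _ _)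
    rw [le_div_iff₀ (by positivity)] at h1
    linarith
  have e5 : Cg * (Cv * (ε / p) / η) ≤ δ' / 2 := by
    have h1 : ε ≤ δ' * (p * η) / (2 * (Cg * Cv + 1)) := by
      rw [hε]; exact (min_le_right _ _).trans (min_le_right _ _)
    rw [le_div_iff₀ (by positivity)] at h1
    have h2 : Cg * (Cv * (ε / p) / η) = Cg * Cv * ε / (p * η) := by
      field_simp
    rw [h2, div_le_div_iff₀ (by positivity) (by norm_num)]
    linarith
  obtain ⟨c₁, hc₁, hV⟩ := hV ε hε0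
  obtain ⟨Bb, c, hM⟩ := hM ε c₁ hε0 e1 hc₁
  obtain ⟨c', hV⟩ := hV Bb c
  obtain ⟨e, A, m₀, he, hM⟩ := hM c'
  -- the visible side
  obtain ⟨A₀, H₀, z₃, ϖ₃, hϖ₃, hvd⟩ := visD_of n K' Kf B lam Cf C₁ h (c₁ * p) hn hB hl0 hCf hC₁0
    hh hh1 (by positivity)
  obtain ⟨c₃, hc₃⟩ : ∃ c₃ : ℝ, c₃ = c₁ * p * (η / Cv) := ⟨_, rfl⟩
  have hc₃0 : 0 < c₃ := by rw [hc₃]; positivity
  obtain ⟨Q, hQ2⟩ := exists_nat_ge (C₂ / c₃)
  -- the numbers
  obtain ⟨T, hT⟩ : ∃ T : ℝ, T = V + B₀ + Ag + n + 4 + Cg * (Cv * (1 / p + 1) / η + Q + 2) :=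
    ⟨_, rfl⟩
  have hT0 : 0 ≤ T := by rw [hT]; positivity
  obtain ⟨m₁, hm₁⟩ := exists_nat_ge (2 * T / δ' + 2 * (c' + 2) / σ + 2 * (cf + 2) / σv +
    2 / (εv * p) + Xv + H₀ + m₀)
  obtain ⟨Qg, hQg⟩ := exists_nat_ge (1 / gam n)
  obtain ⟨N₁, hN₁⟩ : ∃ N₁ : ℕ → ℕ, N₁ = fun N : ℕ =>
    ⌈Cv * ((ε * (N : ℝ) + 1) / p + 1) / η⌉₊ + Q := ⟨_, rfl⟩
  obtain ⟨Rf, hRf⟩ : ∃ Rf : ℕ → ℕ, Rf = fun N => rfV A N + rfV Ap N + (A₀ + 1) * (N + 1) +
    (Qg + 1) * (N + 1) + (A₂ * N + 1) + Cg * (N₁ N + 1) + 2 := ⟨_, rfl⟩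
  obtain ⟨N₀, M, κ₁, ϖ₁, z₁, hκ₁, hϖ₁, hV⟩ := hV (min e (c₂ / 4)) Rf m₁
    (lt_min he (by positivity))
  obtain ⟨κ₂, ϖ₂, z₂, hκ₂, hϖ₂, hM⟩ := hM N₀ M
  by_cases hM2 : 2 ≤ M
  swap
  · -- no cells
    refine ⟨M, 0, 1, κ₁, ϖ₁, z₁, one_pos, hκ₁, hϖ₁, ?_⟩
    intro J a₀ w₀ z D q hz hO _ hN hTm
    obtain ⟨i, j, X, _, _, _, _, _, _, _, ⟨_, h6, _⟩, _⟩ := hV J a₀ w₀ z D q hz hO hN hTm
    exfalso
    have h7 : 2 ≤ Rf N₀ := by rw [hRf]; exact Nat.le_add_left _ _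
    omega
  obtain ⟨κ₄, z₄, hκ₄, hfr⟩ := hfr M (c₁ * (c₂ / 4)) hM2 (by positivity)
  choose κf zf hκf hglu using fun (X₃ : ℕ) (hx : C₂ ≤ c₃ * X₃) => hglu c₃ X₃ hc₃0 hx
  obtain ⟨κ₅, hκ₅, hκ5⟩ := fin_min (fun X₃ => if hx : C₂ ≤ c₃ * X₃ then κf X₃ hx else 1)
    (fun X₃ => by
      split_ifs with hx
      · exact hκf X₃ hx
      · exact one_pos) (N₁ N₀)
  obtain ⟨z₅, hz5⟩ := fin_max (fun X₃ => if hx : C₂ ≤ c₃ * X₃ then zf X₃ hx else 0) (N₁ N₀)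
  obtain ⟨κ, hκ⟩ : ∃ κ, κ = min (min κ₁ κ₂) (min κ₄ κ₅) := ⟨_, rfl⟩
  have k1 : κ ≤ κ₁ := by rw [hκ]; exact (min_le_left _ _).trans (min_le_left _ _)
  have k2 : κ ≤ κ₂ := by rw [hκ]; exact (min_le_left _ _).trans (min_le_right _ _)
  have k4 : κ ≤ κ₄ := by rw [hκ]; exact (min_le_right _ _).trans (min_le_left _ _)
  have k5 : κ ≤ κ₅ := by rw [hκ]; exact (min_le_right _ _).trans (min_le_right _ _)
  obtain ⟨ϖ, hϖ⟩ : ∃ ϖ, ϖ = min (min ϖ₁ ϖ₂) ϖ₃ := ⟨_, rfl⟩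
  have v1 : ϖ ≤ ϖ₁ := by rw [hϖ]; exact (min_le_left _ _).trans (min_le_left _ _)
  have v2 : ϖ ≤ ϖ₂ := by rw [hϖ]; exact (min_le_left _ _).trans (min_le_right _ _)
  have v3 : ϖ ≤ ϖ₃ := by rw [hϖ]; exact min_le_right _ _
  refine ⟨M, Kg, c₃ / 2, κ, ϖ, z₁ + z₂ + z₃ + z₄ + z₅ + 1, by positivity,
    by rw [hκ]; exact lt_min (lt_min hκ₁ hκ₂) (lt_min hκ₄ hκ₅),
    by rw [hϖ]; exact lt_min (lt_min hϖ₁ hϖ₂) hϖ₃, ?_⟩
  intro J a₀ w₀ z D q hz hO hLd hNF hTm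
  have hz1 : 1 ≤ z := by omega
  have hzR : (1 : ℝ) ≤ z := by exact_mod_cast hz1
  have hz0 : (0 : ℝ) ≤ z := by linarith
  have tm : ∀ κ' : ℝ, κ ≤ κ' → D.TmU J w₀ z κ' q := fun κ' hk => by
    unfold NDat2.TmU at hTm ⊢
    have := mul_le_mul_of_nonneg_right hk hz0
    linarith
  have nf : ∀ ϖ' : ℝ, ϖ ≤ ϖ' → D.NF n z M B gam h C₁ ϖ' q := fun ϖ' hk i hi j hj r U h1 h2 E hE =>
    hNF i hi j hj r U h1 h2 E (hk.trans hE)
  obtain ⟨i, j, X, Om, _, P, f, G, hmX, hXN, hRoom, hVSt, hLA, hLB⟩ := hV J a₀ w₀ z D q (by omega)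
    (hO.mono_κ k1) (nf _ v1) (tm _ k1)
  have hX0 : (0 : ℝ) ≤ X := Nat.cast_nonneg _
  have hXNR : (X : ℝ) ≤ N₀ * z := by exact_mod_cast hXN
  -- the numbers: `m₁ z ≤ X`
  have hbig : ∀ x : ℝ, x ≤ m₁ → x * z ≤ X := fun x hx => by
    have h1 : (m₁ : ℝ) * z ≤ X := by exact_mod_cast hmX
    exact (mul_le_mul_of_nonneg_right hx hz0).trans h1
  have q1 : 0 ≤ 2 * T / δ' := by positivity
  have q2 : 0 ≤ 2 * ((c' : ℝ) + 2) / σ := by positivity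
  have q3 : 0 ≤ 2 * ((cf : ℝ) + 2) / σv := by positivity
  have q4 : 0 ≤ 2 / (εv * p) := by positivity
  have q5 : (0 : ℝ) ≤ Xv := Nat.cast_nonneg _
  have q6 : (0 : ℝ) ≤ H₀ := Nat.cast_nonneg _
  have q7 : (0 : ℝ) ≤ m₀ := Nat.cast_nonneg _
  have x1 : T * z ≤ δ' * X / 2 := by
    have h1 := hbig (2 * T / δ') (by linarith)
    rw [div_mul_eq_mul_div, div_le_iff₀ hδ'] at h1
    linarith
  have x2 : ((c' : ℝ) + 2) * z ≤ σ * X / 2 := by
    have h1 := hbig (2 * (c' + 2) / σ) (by linarith)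
    rw [div_mul_eq_mul_div, div_le_iff₀ hσ] at h1
    linarith
  have x3 : ((cf : ℝ) + 2) * z ≤ σv * X / 2 := by
    have h1 := hbig (2 * (cf + 2) / σv) (by linarith)
    rw [div_mul_eq_mul_div, div_le_iff₀ hσv] at h1
    linarith
  have x4 : 2 / (εv * p) ≤ X := by
    have h1 := hbig (2 / (εv * p)) (by linarith)
    have h2 : 2 / (εv * p) ≤ 2 / (εv * p) * z := le_mul_of_one_le_right q4 hzR
    linarith
  have x5 : Xv ≤ X := by
    have h1 := hbig Xv (by linarith)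
    have h2 : (Xv : ℝ) ≤ Xv * z := le_mul_of_one_le_right q5 hzR
    exact_mod_cast h2.trans h1
  have x6 : H₀ * z ≤ X := by
    have h1 := hbig H₀ (by linarith)
    exact_mod_cast h1
  have x7 : m₀ * z ≤ X := by
    have h1 := hbig m₀ (by linarith)
    exact_mod_cast h1
  -- the room
  obtain ⟨ρ1, ρ2, ρ3, ρ4⟩ := hRoom
  have hR0 : Rf N₀ = rfV A N₀ + rfV Ap N₀ + (A₀ + 1) * (N₀ + 1) +
    (Qg + 1) * (N₀ + 1) + (A₂ * N₀ + 1) + Cg * (N₁ N₀ + 1) + 2 := by rw [hRf]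
  have hiM : i < M := by omega
  have hjM : j < M := by omega
  -- the middle
  obtain ⟨m, H, hm1, hm2, hHd, hEv⟩ := hM J a₀ w₀ z i j X D q Om P f G (by omega) x7 hXN
    ⟨by omega, by omega, by omega, by omega⟩ (hO.mono_κ k2) (hLd.mono k2) (nf _ v2) (tm _ k2) hVSt
    ⟨fun i' j' h1 h2 h3 => (hLA i' j' h1 h2 h3).trans (min_le_left _ _),
      fun i' j' h1 h2 h3 => (hLB i' j' h1 h2 h3).trans (min_le_left _ _)⟩
  have hmX1 : (m : ℝ) ≤ X := by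
    have : δ * (X : ℝ) ≤ 1 * X := mul_le_mul_of_nonneg_right hδ1 hX0
    linarith
  have hmX2 : m ≤ X := by exact_mod_cast hmX1
  -- the own pair
  obtain ⟨t, ht⟩ : ∃ t, t = ⌊σ * (X : ℝ)⌋₊ := ⟨_, rfl⟩
  have ht1 : σ * (X : ℝ) - 1 ≤ t := by
    rw [ht]
    have := Nat.lt_floor_add_one (σ * (X : ℝ))
    linarith
  have htX : t ≤ N₀ * z := by
    have h1 : (t : ℝ) ≤ σ * X := by rw [ht]; exact Nat.floor_le (by positivity)
    have h2 : σ * (X : ℝ) ≤ 1 * X := mul_le_mul_of_nonneg_right hσ1 hX0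
    have h3 : t ≤ X := by
      have : (t : ℝ) ≤ X := by linarith
      exact_mod_cast this
    exact h3.trans hXN
  obtain ⟨s, hs⟩ : ∃ s, s = ⌊σv * (X : ℝ)⌋₊ := ⟨_, rfl⟩
  have hs1 : σv * (X : ℝ) - 1 ≤ s := by
    rw [hs]
    have := Nat.lt_floor_add_one (σv * (X : ℝ))
    linarith
  obtain ⟨πp, ap, an, be, sp, S', -, hg⟩ := hgeo K J a₀ w₀ z M N₀ t i j κ D q hz1 htX (by omega)
    (by omega) (by omega) (by omega) hO
  obtain ⟨i', hi'⟩ : ∃ i', i' = i - S' * an := ⟨_, rfl⟩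
  obtain ⟨j', hj'⟩ : ∃ j', j' = j + S' * be := ⟨_, rfl⟩
  have hplA := hg.plA
  have ho' := hg.o'_lt
  rw [← hi', ← hj'] at hplA ho'
  obtain ⟨acc, hacc⟩ : ∃ acc : ℝ, acc = 2 ^ (c' * z) * (2 : ℝ) ^ (Ca * ε * X) / 2 ^ t := ⟨_, rfl⟩
  have hLA' : Pb P (fun w => ¬ LfA D n z i j i' j' (G w) acc (f w)) ≤ c₂ / 4 := by
    have h1 := hLA i' j' ho'.1 ho'.2 (by rw [← ht]; exact hplA)
    rw [← ht, ← hacc] at h1
    exact h1.trans (min_le_right _ _)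
  -- the event
  have hPl := hVSt.sub.isLaw
  have hPq : ∀ v, 0 < P v → 0 < q (f v) := fun v hv => sub_pos hc₁ hVSt.sub hv
  have hbadF : Pb P (fun w => ¬ Fra D n Kf M z Cf (f w)) ≤ c₂ / 4 := by
    have h1 := sub_bad hO.isLaw hc₁ hVSt.sub (fun ω => ¬ Fra D n Kf M z Cf ω)
    refine h1.trans ?_
    rw [div_le_iff₀ hc₁, mul_comm]
    exact hfr J a₀ w₀ z κ D q (by omega) k4 hO
  obtain ⟨E₁, hE₁⟩ : ∃ E₁ : Om → Prop, E₁ = fun v =>
      (EvH D n J w₀ z i j (A₂ * m) (a * m) (G v) H (f v) ∧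
        LfA D n z i j i' j' (G v) acc (f v)) ∧ Fra D n Kf M z Cf (f v) := ⟨_, rfl⟩
  have hPE₁ : p ≤ Pb P E₁ := by
    have h1 := Pb_and_ge hPl.nonneg (fun v => EvH D n J w₀ z i j (A₂ * m) (a * m) (G v) H (f v))
      (fun v => LfA D n z i j i' j' (G v) acc (f v))
    have h2 := Pb_and_ge hPl.nonneg (fun v => EvH D n J w₀ z i j (A₂ * m) (a * m) (G v) H (f v) ∧
      LfA D n z i j i' j' (G v) acc (f v)) (fun v => Fra D n Kf M z Cf (f v))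
    rw [hE₁, hp]
    linarith
  have hPE₁0 : 0 < Pb P E₁ := hp0.trans_le hPE₁
  obtain ⟨P₁, hP₁⟩ : ∃ P₁, P₁ = cond P E₁ True := ⟨_, rfl⟩
  have hsub₁ : SubL q (c₁ * p) P₁ f := by
    rw [hP₁]
    exact sub_cond hc₁ hVSt.sub hPE₁ hp0
  have hP₁pos : ∀ v, 0 < P₁ v → 0 < P v ∧ E₁ v := fun v hv => by
    rw [hP₁] at hv
    have h1 := (cond_pos_iff hPl.nonneg _ True v).1 hv
    exact ⟨h1.1, by simpa using h1.2⟩
  have hXz : X / z ≤ N₀ := Nat.div_le_of_le_mul (by rw [Nat.mul_comm]; exact hXN)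
  have hεX : 0 ≤ ε * (X : ℝ) := by positivity
  have hvd1 : VisD D n z i j X K' P₁ f G ((ε * X + 1) / p) (ε * X) η := by
    rw [hP₁, hη]
    refine hvd D K J a₀ w₀ z M i j X gam κ c₁ p (ε * X) (ε * X) q Om P f G E₁ hKf (by omega) hO
      (nf _ v3) ?_ hjM ?_ x6 hVSt hc₁ hp0 hPE₁ le_rfl hεX (fun v _ hv => by
        rw [hE₁] at hv
        exact hv.2)
    · have h1 : A₀ * (X / z + 1) ≤ (A₀ + 1) * (N₀ + 1) :=
        Nat.mul_le_mul (by omega) (by omega)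
      omega
    · have h1 : (Qg + 1) * (N₀ + 1) ≤ M - j := by omega
      have h2 : ((Qg : ℝ) + 1) * (N₀ + 1) ≤ M - j := by
        have h3 : (((Qg + 1) * (N₀ + 1) : ℕ) : ℝ) ≤ ((M - j : ℕ) : ℝ) := by exact_mod_cast h1
        rw [Nat.cast_sub hjM.le] at h3
        push_cast at h3
        linarith
      have h4 : ((X / z : ℕ) : ℝ) ≤ N₀ := by exact_mod_cast hXz
      have h5 : 1 ≤ gam n * Qg := by
        rw [div_le_iff₀ hgn] at hQg
        linarith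
      have hN0 : (0 : ℝ) ≤ N₀ := Nat.cast_nonneg _
      calc ((X / z : ℕ) : ℝ) + 1 ≤ 1 * (N₀ + 1) := by linarith
        _ ≤ gam n * Qg * (N₀ + 1) := mul_le_mul_of_nonneg_right h5 (by linarith)
        _ ≤ gam n * (M - j) := by
            rw [mul_assoc]
            refine mul_le_mul_of_nonneg_left (le_trans ?_ h2) hgn.le
            exact mul_le_mul_of_nonneg_right (by linarith) (by linarith)
  obtain ⟨θ₁, hθ₁⟩ : ∃ θ₁ : ℝ, θ₁ = (ε * X + 1) / p := ⟨_, rfl⟩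
  rw [← hθ₁] at hvd1
  have hθ₁0 : 0 ≤ θ₁ := by rw [hθ₁]; positivity
  obtain ⟨U, hU, -, E₂, hE₂, hcfU, hfewU⟩ := hvis D z i j X Om P₁ f G θ₁ (ε * X) x5 hθ₁0 hεX (by
      rw [hθ₁, div_le_iff₀ hp0]
      have h1 : ε * (X : ℝ) ≤ εv * p / 2 * X := mul_le_mul_of_nonneg_right e3 hX0
      rw [div_le_iff₀ (by positivity)] at x4
      linarith) (mul_le_mul_of_nonneg_right e2 hX0) hn hvd1
  rw [← hs] at hcfU
  have hηC : 0 < η / Cv := by positivity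
  obtain ⟨P₂, hP₂⟩ : ∃ P₂, P₂ = cond P₁ E₂ True := ⟨_, rfl⟩
  rw [← hP₂] at hfewU
  have hsub₂ : SubL q c₃ P₂ f := by
    rw [hP₂, hc₃]
    exact sub_cond (by positivity) hsub₁ hE₂ hηC
  have hP₂pos : ∀ v, 0 < P₂ v → 0 < P₁ v ∧ E₂ v := fun v hv => by
    rw [hP₂] at hv
    have h1 := (cond_pos_iff hsub₁.isLaw.nonneg _ True v).1 hv
    exact ⟨h1.1, by simpa using h1.2⟩
  -- `X₃`
  obtain ⟨y, hy⟩ : ∃ y : ℝ, y = Cv * (θ₁ + 1) / η := ⟨_, rfl⟩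
  have hy0 : 0 ≤ y := by rw [hy]; positivity
  obtain ⟨X₃, hX₃⟩ : ∃ X₃ : ℕ, X₃ = ⌈y / z⌉₊ + Q := ⟨_, rfl⟩
  have hzpos : (0 : ℝ) < z := by linarith
  have w1 : y ≤ X₃ * z := by
    have h1 := Nat.le_ceil (y / z)
    rw [div_le_iff₀ hzpos] at h1
    rw [hX₃]
    push_cast
    have h2 : (0 : ℝ) ≤ Q * z := by positivity
    linarith
  have w2 : C₂ ≤ c₃ * X₃ := by
    rw [div_le_iff₀ hc₃0] at hQ2
    rw [hX₃]
    push_cast
    have h2 : 0 ≤ c₃ * (⌈y / z⌉₊ : ℝ) := by positivity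
    linarith
  have w3 : (X₃ : ℝ) * z ≤ y + (Q + 1) * z := by
    have h1 := (Nat.ceil_lt_add_one (show 0 ≤ y / z by positivity)).le
    have h2 := mul_le_mul_of_nonneg_right h1 hz0
    rw [add_mul, div_mul_cancel₀ _ hzpos.ne'] at h2
    rw [hX₃]
    push_cast
    linarith
  have w4 : X₃ ≤ N₁ N₀ := by
    rw [hX₃, hN₁]
    refine Nat.add_le_add_right (Nat.ceil_le_ceil ?_) _
    rw [div_le_iff₀ hzpos, hy, div_mul_eq_mul_div]
    refine div_le_div_of_nonneg_right ?_ hη0.le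
    rw [mul_assoc]
    refine mul_le_mul_of_nonneg_left ?_ hCv0.le
    rw [hθ₁, add_mul, one_mul, div_mul_eq_mul_div]
    refine add_le_add (div_le_div_of_nonneg_right ?_ hp0.le) hzR
    rw [add_mul, one_mul, mul_assoc]
    exact add_le_add (mul_le_mul_of_nonneg_left hXNR hε0.le) hzR
  have hκ5' : κ ≤ κf X₃ w2 := by
    have h1 := hκ5 X₃ w4
    rw [dif_pos w2] at h1
    exact k5.trans h1
  have hz5' : zf X₃ w2 ≤ z := by
    have h1 := hz5 X₃ w4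
    rw [dif_pos w2] at h1
    omega
  -- `k`
  obtain ⟨k, hk⟩ : ∃ k, k = A₂ * m / z + 1 := ⟨_, rfl⟩
  have y1 : A₂ * m ≤ k * z := by
    rw [hk]
    have h1 := Nat.lt_div_mul_add (a := A₂ * m) (b := z) (by omega)
    have h2 : (A₂ * m / z + 1) * z = A₂ * m / z * z + z := by ring
    omega
  have y2 : k * z ≤ A₂ * m + z := by
    rw [hk]
    have h1 := Nat.div_mul_le_self (A₂ * m) z
    have h2 : (A₂ * m / z + 1) * z = A₂ * m / z * z + z := by ring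
    omega
  have y3 : k ≤ A₂ * N₀ + 1 := by
    rw [hk]
    have h1 : A₂ * m / z ≤ A₂ * N₀ := Nat.div_le_of_le_mul (by
      calc A₂ * m ≤ A₂ * (N₀ * z) := Nat.mul_le_mul_left _ (hmX2.trans hXN)
        _ = z * (A₂ * N₀) := by ring)
    omega
  have hi₂ : i + k + Cg * (X₃ + 1) ≤ M := by
    have h1 : Cg * (X₃ + 1) ≤ Cg * (N₁ N₀ + 1) := Nat.mul_le_mul_left _ (by omega)
    omega
  have hi₂' : i + k < M := by omega
  have hj₂ : j + k < M := by omega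
  -- the accuracy
  have m1 : T * z + Cg * (Cv * (ε / p) / η) * X ≤ m := by
    have h1 : Cg * (Cv * (ε / p) / η) * X ≤ δ' / 2 * X := mul_le_mul_of_nonneg_right e5 hX0
    linarith
  have m2 : ((V : ℝ) + B₀ + Ag + n + 4) * z + Cg * ((X₃ + 1) * z) ≤ m := by
    have h1 : Cg * ((X₃ : ℝ) * z) ≤ Cg * (y + (Q + 1) * z) := mul_le_mul_of_nonneg_left w3 hCg0
    have h2 : y = Cv * (ε / p) / η * X + Cv * (1 / p + 1) / η := by
      rw [hy, hθ₁]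
      ring
    have h3 : Cv * (1 / p + 1) / η ≤ Cv * (1 / p + 1) / η * z :=
      le_mul_of_one_le_right (by positivity) hzR
    have h4 : Cg * (Cv * (1 / p + 1) / η) ≤ Cg * (Cv * (1 / p + 1) / η * z) :=
      mul_le_mul_of_nonneg_left h3 hCg0
    rw [h2] at h1
    rw [hT] at m1
    have h5 : ((V : ℝ) + B₀ + Ag + n + 4 + Cg * (Cv * (1 / p + 1) / η + Q + 2)) * z =
      ((V : ℝ) + B₀ + Ag + n + 4) * z + Cg * (Cv * (1 / p + 1) / η * z) + Cg * ((Q + 1) * z) +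
        Cg * z := by ring
    rw [h5] at m1
    have h6 : Cg * ((X₃ + 1) * (z : ℝ)) = Cg * ((X₃ : ℝ) * z) + Cg * z := by ring
    have h7 : (Cg : ℝ) * (Cv * (ε / p) / η * X + Cv * (1 / p + 1) / η + (Q + 1) * z) =
      Cg * (Cv * (ε / p) / η) * X + Cg * (Cv * (1 / p + 1) / η) + Cg * ((Q + 1) * z) := by ring
    rw [h7] at h1
    rw [h6]
    linarith
  have m3 : (V + B₀ + Ag + n + 4) * z + Cg * ((X₃ + 1) * z) ≤ m := by exact_mod_cast m2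
  have m4 : V * (A₂ * m) + m ≤ a * m := by
    have h1 : (V * A₂ + 1) * m ≤ a * m := Nat.mul_le_mul_right _ haV
    have h2 : (V * A₂ + 1) * m = V * (A₂ * m) + m := by ring
    omega
  have m5 : (V + B₀ + Ag + n + 4) * z = V * z + B₀ * z + Ag * z + n * z + 4 * z := by ring
  obtain ⟨R', hR'⟩ : ∃ R', a * m = R' + (n * z + 4 * z) :=
    ⟨a * m - (n * z + 4 * z), by omega⟩
  have hnz : n ≤ n * z := Nat.le_mul_of_pos_right _ hz1
  have amX : (a : ℝ) * m ≤ a * δ * X := by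
    have := mul_le_mul_of_nonneg_left hm2 ha0
    linarith
  have R1 : (R' : ℝ) ≤ σ * X / 4 := by
    have h1 : (R' : ℝ) ≤ a * m := by exact_mod_cast (by omega : R' ≤ a * m)
    have h2 := mul_le_mul_of_nonneg_right hδσ hX0
    linarith
  have R2 : (R' : ℝ) ≤ σv * X / 4 := by
    have h1 : (R' : ℝ) ≤ a * m := by exact_mod_cast (by omega : R' ≤ a * m)
    have h2 := mul_le_mul_of_nonneg_right hδv hX0
    linarith
  have a1 : cf * z + (R' + 1) ≤ s := by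
    have h1 : ((cf * z + (R' + 1) : ℕ) : ℝ) ≤ s := by
      push_cast
      have h2 : ((cf : ℝ) + 2) * z = cf * z + 2 * z := by ring
      have h3 : 0 ≤ σv * (X : ℝ) := by positivity
      linarith
    exact_mod_cast h1
  have a2 : ((c' * z : ℕ) : ℝ) + Ca * ε * X + (R' + 1) ≤ t := by
    push_cast
    have h2 : ((c' : ℝ) + 2) * z = c' * z + 2 * z := by ring
    have h3 := mul_le_mul_of_nonneg_right e4 hX0
    linarith
  have a3 : R' ≤ t := by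
    have h1 : (R' : ℝ) ≤ t := by
      have h2 : (0 : ℝ) ≤ (c' * z : ℕ) := Nat.cast_nonneg _
      have h3 : 0 ≤ Ca * ε * (X : ℝ) := by positivity
      linarith
    exact_mod_cast h1
  -- the levels
  have L1 : ∀ l, 1 ≤ l → l ≤ n → D.g i j l ≤ D.g (i + k) (j + k) l + B₀ * z := by
    intro l l1 l2
    have h1 : (D.g i j l : ℝ) + (-(B₀ * z)) ≤ D.g (i + k) (j + k) l := by
      refine lvx hO hiM.le hjM.le hi₂'.le hj₂.le l1 l2 ?_
      have h2 : 0 ≤ (lam l * k + gam l * k) * z := by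
        have h3 := (hl0 l).le
        have h4 := hgam l
        positivity
      have h3 := mul_le_mul_of_nonneg_right hB₀ hz0
      push_cast
      linarith
    have h2 : (D.g i j l : ℝ) ≤ D.g (i + k) (j + k) l + B₀ * z := by linarith
    exact_mod_cast h2
  have L2 : D.g (i + k) (j + k) n ≤ D.g i j n + (V * (A₂ * m) + V * z + B₀ * z) := by
    have h1 : (D.g (i + k) (j + k) n : ℝ) + (-(V * (k * z) + B₀ * z)) ≤ D.g i j n := by
      refine lvx hO hi₂'.le hj₂.le hiM.le hjM.le hn le_rfl ?_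
      have h2 : (lam n + gam n) * (k * z) ≤ V * (k * z) :=
        mul_le_mul_of_nonneg_right hVn (by positivity)
      have h3 := mul_le_mul_of_nonneg_right hB₀ hz0
      push_cast
      linarith
    have h2 : (D.g (i + k) (j + k) n : ℝ) ≤ D.g i j n + (V * (k * z) + B₀ * z) := by linarith
    have h3 : D.g (i + k) (j + k) n ≤ D.g i j n + (V * (k * z) + B₀ * z) := by exact_mod_cast h2
    have h4 : V * (k * z) ≤ V * (A₂ * m + z) := Nat.mul_le_mul_left _ y2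
    have h5 : V * (A₂ * m + z) = V * (A₂ * m) + V * z := by ring
    omega
  have g2 : D.g (i + k) (j + k) n + (Ag + Cg * (X₃ + 1)) * z ≤ D.g i j n + R' := by
    have h1 : (Ag + Cg * (X₃ + 1)) * z = Ag * z + Cg * ((X₃ + 1) * z) := by ring
    omega
  have g1 : D.g (i + k) (j + k) n + (Ag + Cg * (X₃ + 1)) * z ≤ D.g i' j' n := by
    have h1 := hplA.tgt
    omega
  -- the polynomial of the line
  have hkz : w₀ + (j + k) * z = w₀ + j * z + k * z := by ring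
  have hthin := hO.thin
  have htop := hO.top
  have hjM3 : (j + k) * z ≤ (M + 1) * z := Nat.mul_le_mul_right _ (by omega)
  have hwJ : w₀ + j * z + k * z ≤ J := by rw [← hkz]; omega
  have hwJ2 : w₀ + j * z + A₂ * m ≤ J := by omega
  obtain ⟨H', hH1, hH2⟩ := detF (q := q) (X := D.wn J (w₀ + (j + k) * z))
    (Y := hnω D n J w₀ z i j (A₂ * m) H) (0 : PN) (by
    intro ω ω' p1 p2 hh'
    have h1 : D.wn J (w₀ + j * z) ω = D.wn J (w₀ + j * z) ω' :=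
      wn_det (by rw [hkz]; omega) (by rw [hkz]; exact hwJ) ω ω' p1 p2 hh'
    have h2 : D.T ω / 2 ^ (J - (w₀ + j * z + A₂ * m)) =
        D.T ω' / 2 ^ (J - (w₀ + j * z + A₂ * m)) :=
      (Prod.ext_iff.1 (wn_det (w := w₀ + j * z + A₂ * m) (by rw [hkz]; omega)
        (by rw [hkz]; exact hwJ) ω ω' p1 p2 hh')).2
    have h3 := cell_det hwJ2 ω ω' h2
    have h4 : D.Φ i j ω = D.Φ i j ω' := by
      unfold NDat2.Φ
      rw [hO.c_wn i hiM.le j hjM.le ω ω' p1 p2 h1]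
    have h5 : D.T ω / 2 ^ (J - (w₀ + j * z)) = D.T ω' / 2 ^ (J - (w₀ + j * z)) :=
      (Prod.ext_iff.1 h1).2
    unfold hnω
    rw [h1, h3, h4, h5])
  have hfin := hglu X₃ w2 Ag J a₀ w₀ z M i j i' j' (i + k) (j + k) R' lam gam κ κ D q Om _ P₂ f
    (Pl (n - 1)) (fun ω => U (D.pt ω)) (VtU D n z i j K') H' hz5' hκ5' (Nat.le_add_right _ _)
    (by omega) hi₂ (Nat.le_add_right _ _) hj₂.le ho'.2.le hO hTm hsub₂
    (fun x => by
      rcases hH2 x with ⟨ω, _, h2⟩ | h2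
      · rw [h2]
        exact hnat_deg _ _ _ (hHd _ _)
      · rw [h2, totalDegree_zero]
        exact Nat.zero_le _)
    (fun x => by
      rcases hH2 x with ⟨ω, _, h2⟩ | h2
      · rw [h2]
        have := hnat_vars z (n - 1) ((2 : ℝ) ^ (w₀ + j * z) * eval (fun _ => 0) (D.Φ i j ω 0) -
          ((D.T ω / 2 ^ (J - (w₀ + j * z)) : ℕ) : ℝ)) (H (D.wn J (w₀ + j * z) ω)
          ⌊(thr D J (w₀ + j * z) ω : ℝ) / 2 ^ (J - (w₀ + j * z)) * 2 ^ (A₂ * m)⌋)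
        rw [Nat.sub_add_cancel hn] at this
        exact this
      · rw [h2, vars_0]
        exact Finset.empty_subset _)
    (VtU_deg hO.G_deg) (VtU_vars hO.G_tri) (fun ω ω' _ _ e => congrArg U e)
    ((hfewU.trans (le_of_eq hy.symm)).trans w1) (fun l l1 l2 => ?_) g1 g2 (fun v hv => ?_)
  · exact ⟨i + k, hi₂'.le, j + k, hj₂.le, hfin⟩
  · exact (L1 l l1 l2.le).trans (Nat.add_le_add_left (Nat.mul_le_mul_right _ hBf) _)
  · obtain ⟨b1, b2⟩ := hP₂pos v hv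
    obtain ⟨b3, b4⟩ := hP₁pos v b1
    rw [hE₁] at b4
    exact hev D K J a₀ w₀ z M i j i' j' (i + k) (j + k) (A₂ * m) (a * m) s R' lam gam κ C₁ acc q H
      H' (G v) U (f v) hKf hz1 hiM hjM ho'.1 ho'.2 hi₂' hj₂ hO (hPq v b3) b4.2
      (fun l l1 l2 => L1 l l1 l2.le) (hH1 (f v) (hPq v b3)) b4.1.1 b4.1.2 (hVSt.deg v) hU
      (hcfU v b1 b2) (acc1 (by omega) a1) (by rw [hacc]; exact acc2 a2 a1)

end Pool.VAS
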