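import Pool.Agent.H88.VAS.LevV
import Pool.Agent.H19.VAS.Obj

/-!
# The middle on a sub-law, no ties: interface

`EvH`: the gradients of the total sheet over the line side agree with the gradients of a polynomial
which is a function of the line and of a cell of the relative time. `MidVStmt`: from STEP V, the
leaves and the collinear contexts.
-/

set_option autoImplicit false

namespace Pool.VAS

open Finset MvPolynomial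
open Pool.Agent.H49.Ent Pool.Agent.H32.Dense Pool.STK Pool.STAT Pool.MIC Pool.MicA
open Pool.BFL (Pl Pb)
open Pool.LSH (LdF)

/-- The conclusion of the middle at one sample. -/
def EvH (D : NDat2) (n J w₀ z i j e R : ℕ) (F : Pl (n - 1))
    (H : D.Λ × ℕ → ℤ → Pl (n - 1 + 1)) (ω : D.Ω) : Prop :=
  ∀ y : Fin (n - 1) → ℝ, (∀ l, |y l| ≤ 1) → ∀ l,
    |eval y (pderiv l (kTr D n z i j F ω)) -
      eval (Fin.cons ((thr D J (w₀ + j * z) ω : ℝ) / 2 ^ (J - (w₀ + j * z))) y :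
        Fin (n - 1 + 1) → ℝ) (pderiv l.succ (H (D.wn J (w₀ + j * z) ω)
          ⌊(thr D J (w₀ + j * z) ω : ℝ) / 2 ^ (J - (w₀ + j * z)) * 2 ^ e⌋))| * 2 ^ R ≤ 2

/-- The leaves at all the places. -/
def LvsV (D : NDat2) (n z M X Bb c : ℕ) (lam gam : ℕ → ℝ) (i j : ℕ) (σ acc e : ℝ) {Om : Type}
    [Fintype Om] (P : Om → ℝ) (f : Om → D.Ω) (G : Om → Pl (n - 1)) : Prop :=
  (∀ i' j', i' < M → j' < M → PlA D n ⌊σ * X⌋₊ lam gam i j i' j' →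
    Pb P (fun v => ¬ LfA D n z i j i' j' (G v) acc (f v)) ≤ e) ∧
  ∀ i₁ j₁, i₁ < M → j₁ < M → PlB D n ⌊σ * X⌋₊ c z lam gam i j i₁ j₁ →
    Pb P (fun v => ¬ LfB D n z i j i₁ j₁ ⌊σ * X⌋₊ (G v) (2 ^ (Bb * z)) acc (f v)) ≤ e

/-- **The middle on a sub-law.** `A₂ m` digits of the time are paid, `a m` digits of the height are
won; `δ' X ≤ m ≤ δ X`. -/
def MidVStmt : Prop :=
  ∀ (n K K' V B : ℕ) (lam gam : ℕ → ℝ) (C₁ h σ Ca : ℝ), 1 ≤ n → 1 ≤ B → (∀ l, 0 < lam l) →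
    (∀ l, 0 ≤ gam l) → 0 < gam n → 1 ≤ C₁ → 0 < h → h ≤ 1 → 0 < σ → 4 * B * σ ≤ 1 →
    0 ≤ Ca →
    CondV n lam gam →
    ∃ (A₂ a K₂ : ℕ) (c₂ : ℝ), V * A₂ < a ∧ 0 < c₂ ∧ ∀ δ : ℝ, 0 < δ →
    ∃ (ε₀ δ' : ℝ), 0 < ε₀ ∧ 0 < δ' ∧ ∀ ε c₁ : ℝ, 0 < ε → ε ≤ ε₀ → 0 < c₁ →
    ∃ Bb c : ℕ, ∀ c' : ℕ, ∃ (e : ℝ) (A m₀ : ℕ), 0 < e ∧ ∀ N₀ M : ℕ,
    ∃ (κ ϖ : ℝ) (z₀ : ℕ), 0 < κ ∧ 0 < ϖ ∧
    ∀ (J a₀ w₀ z i j X : ℕ) (D : NDat2) (q : D.Ω → ℝ) (Om : Type) [Fintype Om] (P : Om → ℝ)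
      (f : Om → D.Ω) (G : Om → Pl (n - 1)), z₀ ≤ z → m₀ * z ≤ X → X ≤ N₀ * z →
      Room (rfV A N₀) i j M → D.Ok2 n K J a₀ w₀ z M lam gam κ C₁ q → LdF D n z M lam gam κ q →
      D.NF n z M B gam h C₁ ϖ q → D.TmU J w₀ z κ q →
      VSt D n z i j X K' q c₁ (ε * X) (ε * X) P f G →
      LvsV D n z M X Bb c lam gam i j σ
        (2 ^ (c' * z) * (2 : ℝ) ^ (Ca * ε * X) / 2 ^ ⌊σ * X⌋₊) e P f G →
      ∃ (m : ℕ) (H : D.Λ × ℕ → ℤ → Pl (n - 1 + 1)), δ' * X ≤ m ∧ (m : ℝ) ≤ δ * X ∧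
        (∀ x v, (H x v).totalDegree ≤ K₂) ∧
        c₂ ≤ Pb P (fun v => EvH D n J w₀ z i j (A₂ * m) (a * m) (G v) H (f v))

end Pool.VAS
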