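import Pool.Agent.H88.VAS.Frv
import Pool.Agent.H88.VAS.MidV
import Pool.Agent.H19.VAS.H5T
import Pool.Agent.H19.TIE.GluV
import Pool.Agent.H55.GEN.GluF

/-!
# The hypotheses of the gluing at one sample

`evV_of`: the gradients of the total sheet are those of a polynomial of the line (`EvH`), the total
sheet is the own label at the own pair of the target (`LfA`), the shape is up to small coefficients a
function of the exact point, and there is a frame. Then the gluing applies (`EvV`).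
-/

set_option autoImplicit false

namespace Pool.VAS

open Finset MvPolynomial Real
open Pool.Agent.H49.Ent Pool.Agent.H32.Dense Pool.STK Pool.STAT Pool.MIC Pool.MicA
open Pool.MIC.Frm (nat)
open Pool.BFL (Pl Pb)
open Pool.TIE (MB mxs EvV ml_le_of_cb prod_le2 sum_le_deg)
open Pool.FRM
open Pool.GSD (FrP Fra Sd scv vtP eval_vtP vtP_vars vtP_deg sd_line)
open Pool.STAT.CLO
open Pool.STAT.Glu (Nr Bt Et kk hnω hnat hnat_deg hnat_vars eval_hnat rel_time mv2 up_le)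

/-! ### Small coefficients -/

theorem eval_small {m K : ℕ} {W : Pl m} {δ R : ℝ} (hR : 1 ≤ R) (hδ : 0 ≤ δ)
    (hW : W.totalDegree ≤ K) (hc : ∀ α, |coeff α W| ≤ δ) {y : Fin m → ℝ} (hy : ∀ l, |y l| ≤ R) :
    |eval y W| ≤ ((K : ℝ) + 1) ^ m * δ * R ^ K := by
  have h1 := ml_le_of_cb hW hδ hc
  rw [MvPolynomial.eval_eq']
  refine (Finset.abs_sum_le_sum_abs _ _).trans ?_
  have h2 : ∀ α ∈ W.support, |coeff α W * ∏ i, y i ^ α i| ≤ |coeff α W| * R ^ K := by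
    intro α hα
    rw [abs_mul]
    refine mul_le_mul_of_nonneg_left ?_ (abs_nonneg _)
    exact (prod_le2 hy (fun i => α i) univ).trans (pow_le_pow_right₀ hR (sum_le_deg hW hα))
  refine (Finset.sum_le_sum h2).trans ?_
  rw [← Finset.sum_mul]
  refine mul_le_mul_of_nonneg_right ?_ (by positivity)
  exact h1

/-- Two shapes with near coefficients, up to a constant. -/
theorem eval_near {m K : ℕ} {F U : Pl m} {δ R : ℝ} (hR : 1 ≤ R) (hδ : 0 ≤ δ)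
    (hF : F.totalDegree ≤ K) (hU : U.totalDegree ≤ K)
    (hc : ∀ α, α ≠ 0 → |coeff α F - coeff α U| ≤ δ) {y y' : Fin m → ℝ} (hy : ∀ l, |y l| ≤ R)
    (hy' : ∀ l, |y' l| ≤ R) :
    |(eval y F - eval y U) - (eval y' F - eval y' U)| ≤ 2 * (((K : ℝ) + 1) ^ m * δ * R ^ K) := by
  classical
  obtain ⟨W, hW⟩ : ∃ W : Pl m, W = F - U - C (coeff 0 (F - U)) := ⟨_, rfl⟩
  have hd : W.totalDegree ≤ K := by
    rw [hW]
    refine (totalDegree_sub _ _).trans (max_le ((totalDegree_sub _ _).trans (max_le hF hU)) ?_)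
    rw [totalDegree_C]
    exact Nat.zero_le _
  have hcw : ∀ α, |coeff α W| ≤ δ := by
    intro α
    rw [hW, coeff_sub, coeff_C, coeff_sub]
    by_cases h0 : α = 0
    · rw [h0, if_pos rfl, coeff_sub, sub_self, abs_zero]
      exact hδ
    · rw [if_neg (Ne.symm h0), sub_zero]
      exact hc α h0
  have e : ∀ y : Fin m → ℝ, eval y F - eval y U = eval y W + coeff 0 (F - U) := by
    intro y
    rw [hW, map_sub, map_sub, eval_C]
    ring
  rw [e, e]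
  have h1 := eval_small hR hδ hd hcw hy
  have h2 := eval_small hR hδ hd hcw hy'
  have h3 : eval y W + coeff 0 (F - U) - (eval y' W + coeff 0 (F - U)) = eval y W - eval y' W := by
    ring
  rw [h3]
  refine (abs_sub _ _).trans ?_
  linarith

/-! ### The visible polynomial -/

open Classical in
/-- The visible polynomial of the gluing. -/
noncomputable def VtU (D : NDat2) (n z i j Kv : ℕ) (x : ((D.S × D.S) × Pl (n - 1)) × ℕ) : PN :=
  if x.1.2.totalDegree ≤ Kv then vtP n z (D.g i j) (D.G i j x.1.1.1) x.1.2 else 0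

theorem VtU_vars {D : NDat2} {n z i j Kv : ℕ} (hG : ∀ i j x, TriN (D.G i j x))
    (x : ((D.S × D.S) × Pl (n - 1)) × ℕ) : (VtU D n z i j Kv x).vars ⊆ range n := by
  unfold VtU
  split_ifs
  · exact vtP_vars (hG _ _ _) _
  · rw [vars_0]
    exact Finset.empty_subset _

theorem VtU_deg {D : NDat2} {n z i j K Kv : ℕ} (hG : ∀ i j x l, (D.G i j x l).totalDegree ≤ K)
    (x : ((D.S × D.S) × Pl (n - 1)) × ℕ) :
    (VtU D n z i j Kv x).totalDegree ≤ K + Kv * (K + 1) := by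
  unfold VtU
  split_ifs with h
  · exact vtP_deg (hG _ _ _) h
  · rw [totalDegree_zero]
    exact Nat.zero_le _

/-- `kk` of the total sheet in the scaled coordinates. -/
theorem kk_vtP {D : NDat2} {n J w₀ z i j e : ℕ} {H : D.Λ × ℕ → ℤ → Pl (n - 1 + 1)}
    {F : Pl (n - 1)} (hP : ∀ i j x, TriN (D.P i j x)) (hG : ∀ i j x, TriN (D.G i j x))
    (hg0 : D.g i j 0 = w₀ + j * z) (hw : w₀ + j * z ≤ J) {ω : D.Ω}
    (hX : D.X ω 0 = (D.T ω : ℝ) / 2 ^ J) {b : ℕ → ℝ} (hb : b 0 = D.X ω 0) :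
    kk (D.g i j) (D.Φ i j ω) n (vtP n z (D.g i j) (D.Ψ i j ω) F) (hnω D n J w₀ z i j e H ω) b =
      eval (scv n z (D.g i j) (D.Φ i j ω) b) (kTr D n z i j F ω) -
      eval (Fin.cons ((thr D J (w₀ + j * z) ω : ℝ) / 2 ^ (J - (w₀ + j * z)))
        (scv n z (D.g i j) (D.Φ i j ω) b) : Fin (n - 1 + 1) → ℝ) (H (D.wn J (w₀ + j * z) ω)
          ⌊(thr D J (w₀ + j * z) ω : ℝ) / 2 ^ (J - (w₀ + j * z)) * 2 ^ e⌋) := by
  have hΦ : TriN (D.Φ i j ω) := hP _ _ _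
  rw [eval_kTr D n z i j F ω (hG _ _ _) hΦ hb]
  unfold kk hnω
  rw [eval_hnat]
  have e3 : nc (D.g i j) (D.Φ i j ω) b 0 + ((2 : ℝ) ^ (w₀ + j * z) *
      eval (fun _ => 0) (D.Φ i j ω 0) - ((D.T ω / 2 ^ (J - (w₀ + j * z)) : ℕ) : ℝ)) =
      (thr D J (w₀ + j * z) ω : ℝ) / 2 ^ (J - (w₀ + j * z)) := by
    rw [rel_time hw ω hX]
    unfold nc
    have e4 : eval b (D.Φ i j ω 0) = eval (fun _ => (0 : ℝ)) (D.Φ i j ω 0) :=
      Pool.SYS35.eval_congr (hΦ 0) fun i hi => absurd hi (Nat.not_lt_zero _)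
    rw [e4, hg0, hb]
    ring
  rw [e3]
  rfl

/-- **The gluing at one sample.** -/
theorem evV_of (n K' Kv : ℕ) (C : ℝ) (hn : 1 ≤ n) (hC : 0 ≤ C) (B₀ : ℕ) : ∃ B c : ℕ, B₀ ≤ B ∧
    ∀ (D : NDat2)
    (K J a₀ w₀ z M i j i' j' i₂ j₂ e R s R' : ℕ) (lam gam : ℕ → ℝ) (κ C₁ acc : ℝ) (q : D.Ω → ℝ)
    (H : D.Λ × ℕ → ℤ → Pl (n - 1 + 1)) (H' : D.Λ × ℕ → PN) (F : Pl (n - 1))
    (U : D.Ξ → Pl (n - 1)) (ω : D.Ω), K ≤ K' → 1 ≤ z → i < M → j < M → i' < M → j' < M →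
    i₂ < M → j₂ < M → D.Ok2 n K J a₀ w₀ z M lam gam κ C₁ q → 0 < q ω → Fra D n K' M z C ω →
    (∀ l, 1 ≤ l → l < n → D.g i j l ≤ D.g i₂ j₂ l + B₀ * z) →
    H' (D.wn J (w₀ + j₂ * z) ω) = hnω D n J w₀ z i j e H ω →
    EvH D n J w₀ z i j e R F H ω → LfA D n z i j i' j' F acc ω →
    F.totalDegree ≤ Kv → (∀ x, (U x).totalDegree ≤ Kv) →
    (∀ α, α ≠ 0 → |coeff α F - coeff α (U (D.pt ω))| ≤ 2 / 2 ^ s) →
    4 * n / 2 ^ R + 2 ^ (c * z) / 2 ^ s ≤ (1 : ℝ) / 2 ^ R' →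
    acc + 2 ^ (c * z) / 2 ^ s ≤ 1 / 2 ^ R' →
    EvV D n J w₀ z i j i' j' i₂ j₂ B (fun ω => ((D.s i j ω, D.s 0 j ω), U (D.pt ω)))
      (VtU D n z i j Kv) H' (1 / 2 ^ R') ω := by
  obtain ⟨B, hBB, hB⟩ := frv n K' C hC B₀
  obtain ⟨c₀, hc₀⟩ := pow_unbounded_of_one_lt (4 * ((Kv : ℝ) + 1) ^ (n - 1)) one_lt_two
  refine ⟨B, c₀ + B * Kv, hBB, ?_⟩
  intro D K J a₀ w₀ z M i j i' j' i₂ j₂ e R s R' lam gam κ C₁ acc q H H' F U ω hK hz hi hj hi' hj'
    hi₂ hj₂ hO hω hFr hlev hH hE hL hF hU hcf hR1 hR2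
  obtain ⟨f1, f2, f3, f4, -⟩ := hB D K z M i j ω hK hz hi hj hO.G_tri hO.G_deg hFr
    (sd_line hO hi.le hj.le hω)
  have hVt : VtU D n z i j Kv (((D.s i j ω, D.s 0 j ω), U (D.pt ω)), D.T ω) =
      vtP n z (D.g i j) (D.Ψ i j ω) (U (D.pt ω)) := by
    unfold VtU
    rw [if_pos (hU _)]
    rfl
  have h2R : (1 : ℝ) ≤ 2 ^ (B * z) := one_le_pow₀ (by norm_num)
  have hg : (0 : ℝ) < 2 ^ D.g i j n := by positivity
  -- the shapes
  have near : ∀ b b' : ℕ → ℝ, (∀ l, |scv n z (D.g i j) (D.Ψ i j ω) b l| ≤ 2 ^ (B * z)) →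
      (∀ l, |scv n z (D.g i j) (D.Ψ i j ω) b' l| ≤ 2 ^ (B * z)) →
      |(eval b (vtP n z (D.g i j) (D.Ψ i j ω) F) -
          eval b (vtP n z (D.g i j) (D.Ψ i j ω) (U (D.pt ω)))) -
        (eval b' (vtP n z (D.g i j) (D.Ψ i j ω) F) -
          eval b' (vtP n z (D.g i j) (D.Ψ i j ω) (U (D.pt ω))))| ≤
        2 ^ ((c₀ + B * Kv) * z) / 2 ^ s / 2 ^ D.g i j n := by
    intro b b' hb hb'
    have h1 := eval_near h2R (by positivity) hF (hU (D.pt ω)) hcf hb hb'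
    have e1 : (eval b (vtP n z (D.g i j) (D.Ψ i j ω) F) -
          eval b (vtP n z (D.g i j) (D.Ψ i j ω) (U (D.pt ω)))) -
        (eval b' (vtP n z (D.g i j) (D.Ψ i j ω) F) -
          eval b' (vtP n z (D.g i j) (D.Ψ i j ω) (U (D.pt ω)))) =
        ((eval (scv n z (D.g i j) (D.Ψ i j ω) b) F -
          eval (scv n z (D.g i j) (D.Ψ i j ω) b) (U (D.pt ω))) -
        (eval (scv n z (D.g i j) (D.Ψ i j ω) b') F -
          eval (scv n z (D.g i j) (D.Ψ i j ω) b') (U (D.pt ω)))) / 2 ^ D.g i j n := by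
      rw [eval_vtP, eval_vtP, eval_vtP, eval_vtP]
      ring
    rw [e1, abs_div, abs_of_pos hg]
    refine div_le_div_of_nonneg_right (h1.trans ?_) hg.le
    have e2 : 2 * (((Kv : ℝ) + 1) ^ (n - 1) * (2 / 2 ^ s) * (2 ^ (B * z)) ^ Kv) =
        4 * ((Kv : ℝ) + 1) ^ (n - 1) * (2 ^ (B * z)) ^ Kv / 2 ^ s := by ring
    rw [e2]
    refine div_le_div_of_nonneg_right ?_ (by positivity)
    calc 4 * ((Kv : ℝ) + 1) ^ (n - 1) * (2 ^ (B * z)) ^ Kv ≤ 2 ^ c₀ * (2 ^ (B * z)) ^ Kv :=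
          mul_le_mul_of_nonneg_right hc₀.le (by positivity)
      _ = 2 ^ (c₀ + B * z * Kv) := by rw [← pow_mul, ← pow_add]
      _ ≤ 2 ^ ((c₀ + B * Kv) * z) := by
          refine pow_le_pow_right₀ (by norm_num) ?_
          have : c₀ ≤ c₀ * z := Nat.le_mul_of_pos_right _ hz
          nlinarith
  refine ⟨f1 i₂ j₂ hi₂ hj₂ hlev, fun l l1 l2 b hb => f2 i' j' hi' hj' l l1 l2 b hb, ?_, ?_⟩
  · -- the line side
    intro b b' hb hb'
    show |kk (D.g i j) (D.Φ i j ω) n (VtU D n z i j Kv (((D.s i j ω, D.s 0 j ω), U (D.pt ω)),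
        D.T ω)) (H' (D.wn J (w₀ + j₂ * z) ω)) b -
      kk (D.g i j) (D.Φ i j ω) n (VtU D n z i j Kv (((D.s i j ω, D.s 0 j ω), U (D.pt ω)),
        D.T ω)) (H' (D.wn J (w₀ + j₂ * z) ω)) b'| ≤ 1 / 2 ^ R'
    rw [hVt, hH]
    have hb0 : b 0 = D.X ω 0 := hb.1
    have hb0' : b' 0 = D.X ω 0 := hb'.1
    have htop := hO.top
    have hthin := hO.thin
    have hjM : j * z ≤ (M + 1) * z := Nat.mul_le_mul_right _ (by omega)
    have hwJ : w₀ + j * z ≤ J := by omega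
    have key := mv2 (kTr D n z i j F ω) (H (D.wn J (w₀ + j * z) ω)
      ⌊(thr D J (w₀ + j * z) ω : ℝ) / 2 ^ (J - (w₀ + j * z)) * 2 ^ e⌋)
      ((thr D J (w₀ + j * z) ω : ℝ) / 2 ^ (J - (w₀ + j * z))) (2 / 2 ^ R)
      (scv n z (D.g i j) (D.Φ i j ω) b') (scv n z (D.g i j) (D.Φ i j ω) b)
      (fun w hw l => by
        have h1 := hE w hw l
        rwa [← le_div_iff₀ (by positivity)] at h1)
      (fun l => up_le (nc_le.2 (hb'.2 _ (by omega) (by have := l.2; omega))))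
      (fun l => up_le (nc_le.2 (hb.2 _ (by omega) (by have := l.2; omega))))
    rw [← kk_vtP hO.P_tri hO.G_tri (hO.g_zero i j) hwJ (hO.X_zero ω) hb0,
      ← kk_vtP hO.P_tri hO.G_tri (hO.g_zero i j) hwJ (hO.X_zero ω) hb0'] at key
    have h2 := near b b' (f3 b hb) (f3 b' hb')
    have e1 : kk (D.g i j) (D.Φ i j ω) n (vtP n z (D.g i j) (D.Ψ i j ω) (U (D.pt ω)))
          (hnω D n J w₀ z i j e H ω) b -
        kk (D.g i j) (D.Φ i j ω) n (vtP n z (D.g i j) (D.Ψ i j ω) (U (D.pt ω)))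
          (hnω D n J w₀ z i j e H ω) b' =
        (kk (D.g i j) (D.Φ i j ω) n (vtP n z (D.g i j) (D.Ψ i j ω) F)
          (hnω D n J w₀ z i j e H ω) b -
        kk (D.g i j) (D.Φ i j ω) n (vtP n z (D.g i j) (D.Ψ i j ω) F)
          (hnω D n J w₀ z i j e H ω) b') - 2 ^ D.g i j n *
        ((eval b (vtP n z (D.g i j) (D.Ψ i j ω) F) -
          eval b (vtP n z (D.g i j) (D.Ψ i j ω) (U (D.pt ω)))) -
        (eval b' (vtP n z (D.g i j) (D.Ψ i j ω) F) -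
          eval b' (vtP n z (D.g i j) (D.Ψ i j ω) (U (D.pt ω))))) := by
      unfold kk
      ring
    rw [e1]
    refine (abs_sub _ _).trans (le_trans (add_le_add ?_ ?_) hR1)
    · refine key.trans ?_
      have e2 : (2 : ℝ) / 2 ^ R * (2 * ((n - 1 : ℕ) : ℝ)) = 4 * ((n - 1 : ℕ) : ℝ) / 2 ^ R := by
        ring
      rw [e2]
      refine div_le_div_of_nonneg_right ?_ (by positivity)
      have : ((n - 1 : ℕ) : ℝ) ≤ n := by exact_mod_cast Nat.sub_le n 1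
      linarith
    · rw [abs_mul, abs_of_pos hg]
      rw [le_div_iff₀ hg] at h2
      linarith
  · -- the own pair
    intro b b' hb hb'
    show |(eval b (VtU D n z i j Kv (((D.s i j ω, D.s 0 j ω), U (D.pt ω)), D.T ω)) -
        eval b (D.Ψ i' j' ω n)) -
      (eval b' (VtU D n z i j Kv (((D.s i j ω, D.s 0 j ω), U (D.pt ω)), D.T ω)) -
        eval b' (D.Ψ i' j' ω n))| ≤ 1 / 2 ^ R' / 2 ^ D.g i j n
    rw [hVt]
    have h1 := hL b b' hb hb'
    have h2 := near b b' (f4 i' j' hi' hj' b hb) (f4 i' j' hi' hj' b' hb')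
    have e1 : (eval b (vtP n z (D.g i j) (D.Ψ i j ω) (U (D.pt ω))) - eval b (D.Ψ i' j' ω n)) -
        (eval b' (vtP n z (D.g i j) (D.Ψ i j ω) (U (D.pt ω))) - eval b' (D.Ψ i' j' ω n)) =
        ((eval b (vtP n z (D.g i j) (D.Ψ i j ω) F) - eval b (D.Ψ i' j' ω n)) -
        (eval b' (vtP n z (D.g i j) (D.Ψ i j ω) F) - eval b' (D.Ψ i' j' ω n))) -
        ((eval b (vtP n z (D.g i j) (D.Ψ i j ω) F) -
          eval b (vtP n z (D.g i j) (D.Ψ i j ω) (U (D.pt ω)))) -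
        (eval b' (vtP n z (D.g i j) (D.Ψ i j ω) F) -
          eval b' (vtP n z (D.g i j) (D.Ψ i j ω) (U (D.pt ω))))) := by ring
    rw [e1]
    refine (abs_sub _ _).trans ((add_le_add h1 h2).trans ?_)
    rw [← add_div]
    exact div_le_div_of_nonneg_right hR2 hg.le

end Pool.VAS
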