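import Pool.Agent.H19.VAS.Def
import Pool.Agent.H41.GSD.HtB
import Pool.Agent.H41.GSD.Own1
import Pool.Agent.H41.FRM.Cmp4

/-!
# The fields of the gluing which follow from a frame

`kj`, `jm` of `EvV`, the size of the boxes, two samples of one exact point.
-/

set_option autoImplicit false

namespace Pool.VAS

open Finset MvPolynomial Real
open Pool.Agent.H49.Ent Pool.Agent.H32.Dense Pool.STK Pool.STAT Pool.MIC Pool.MicA
open Pool.MIC.Frm (nat)
open Pool.BFL (Pl Pb)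
open Pool.TIE (MB mxs)
open Pool.FRM
open Pool.GSD (FrP Fra Sd fr_pack ch eval_ch zs_zero ztS scv six_le w_le)
open Pool.STAT.Glu (Nr Bt Et)

/-- `exp` and powers of two. -/
theorem exp_two_pow {x : ℝ} {N z : ℕ} (h : x ≤ N * Real.log 2) : Real.exp (x * z) ≤ 2 ^ (N * z) := by
  have h1 : x * z ≤ (N * z : ℕ) * Real.log 2 := by
    have := mul_le_mul_of_nonneg_right h (Nat.cast_nonneg (α := ℝ) z)
    push_cast
    linarith
  calc Real.exp (x * z) ≤ Real.exp ((N * z : ℕ) * Real.log 2) := Real.exp_le_exp.2 h1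
    _ = 2 ^ (N * z) := by rw [Real.exp_nat_mul, Real.exp_log (by norm_num)]

theorem up_abs {z : ℕ} {x a : ℝ} (h : |x| ≤ a) : |up z x| ≤ a + 1 := by
  have h2 : (1 : ℝ) ≤ 2 ^ z := one_le_pow₀ (by norm_num)
  have ha : 0 ≤ a := (abs_nonneg _).trans h
  unfold up
  rw [abs_div, abs_of_pos (show (0 : ℝ) < 4 * 2 ^ z by positivity), div_le_iff₀ (by positivity)]
  have h3 : |x + 2 * 2 ^ z| ≤ |x| + 2 * 2 ^ z := by
    refine (abs_add_le _ _).trans ?_
    rw [abs_of_pos (show (0 : ℝ) < 2 * 2 ^ z by positivity)]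
  nlinarith

/-- **One sample with a frame.** -/
theorem frv (n K' : ℕ) (C : ℝ) (hC : 0 ≤ C) (B₀ : ℕ) : ∃ B : ℕ, B₀ ≤ B ∧ ∀ (D : NDat2)
    (K z M i j : ℕ) (ω : D.Ω), K ≤ K' → 1 ≤ z → i < M → j < M → (∀ i j x, TriN (D.G i j x)) →
    (∀ i j x l, (D.G i j x l).totalDegree ≤ K) → Fra D n K' M z C ω →
    Sd D n K i j (D.Φ i j) ω →
    (∀ i₂ j₂, i₂ < M → j₂ < M → (∀ l, 1 ≤ l → l < n → D.g i j l ≤ D.g i₂ j₂ l + B₀ * z) →
      Nr B z (Et (D.X ω 0)) (D.g i₂ j₂) (D.g i j) (D.Ψ i₂ j₂ ω) (D.Ψ i j ω) n) ∧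
    (∀ i' j', i' < M → j' < M → ∀ l, 1 ≤ l → l < n → ∀ b, MB D i j i' j' l ω b →
      |eval b (D.Ψ i' j' ω l) - eval b (D.Ψ i j ω l)| ≤
        2 ^ (B * z) / 2 ^ min (D.g i j l) (D.g i' j' l)) ∧
    (∀ b, Bt 1 (Et (D.X ω 0)) (D.g i j) (D.Φ i j ω) n b → ∀ l : Fin (n - 1),
      |scv n z (D.g i j) (D.Ψ i j ω) b l| ≤ 2 ^ (B * z)) ∧
    (∀ i' j', i' < M → j' < M → ∀ b, MB D i j i' j' n ω b → ∀ l : Fin (n - 1),
      |scv n z (D.g i j) (D.Ψ i j ω) b l| ≤ 2 ^ (B * z)) ∧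
    ∀ (i₁ j₁ X : ℕ) (ω' : D.Ω), i₁ < M → j₁ < M →
      (∀ l, 1 ≤ l → l ≤ n → D.g i j l + X + B * z ≤ D.g i₁ j₁ l) → D.X ω' 0 = D.X ω 0 →
      D.Ψ i j ω' = D.Ψ i j ω →
      (∀ l, 1 ≤ l → l ≤ n → |D.X ω' l - eval (D.X ω') (D.Ψ i₁ j₁ ω l)| ≤ 1 / 2 ^ D.g i₁ j₁ l) →
      ∀ l, 1 ≤ l → l ≤ n →
        |ztS D i j (D.Ψ i j) ω l - ztS D i j (D.Ψ i j) ω' l| ≤ 1 / 2 ^ X := by
  obtain ⟨C₂, hC₂, hpk⟩ := fr_pack n K' C hC
  obtain ⟨K₂, hK₂⟩ : ∃ K₂ : ℕ, K₂ = K' * (K' + 1) ^ n := ⟨_, rfl⟩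
  obtain ⟨d, hd⟩ : ∃ d, d = dd K₂ (n + 2) := ⟨_, rfl⟩
  have hlog : 0 < Real.log 2 := Real.log_pos (by norm_num)
  obtain ⟨N₁, hN₁⟩ : ∃ N₁ : ℕ, (C₂ + 2) * d ≤ N₁ * Real.log 2 := by
    obtain ⟨N, hN⟩ := exists_nat_ge ((C₂ + 2) * d / Real.log 2)
    exact ⟨N, by rwa [div_le_iff₀ hlog] at hN⟩
  refine ⟨(N₁ + B₀ + 2) * (K₂ + 2) + K₂ + 2, by
    have h1 : (N₁ + B₀ + 2) * (K₂ + 2) = B₀ + (B₀ * K₂ + B₀ + (N₁ + 2) * (K₂ + 2)) := by ring
    omega, ?_⟩
  obtain ⟨B, hB⟩ : ∃ B, B = (N₁ + B₀ + 2) * (K₂ + 2) + K₂ + 2 := ⟨_, rfl⟩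
  rw [← hB]
  intro D K z M i j ω hK hz hi hj tG dG hF hS
  obtain ⟨P, hF⟩ := hF
  obtain ⟨hNΦ', hN', hE6⟩ := hpk D K z M i j (D.Φ i j) ω P hK hz hi hj tG dG hF hS
  rw [← hK₂] at hNΦ' hN'
  obtain ⟨hP, dP, vP, nP⟩ := hF
  have hx₀ : eval (D.X ω) (P 0) = D.X ω 0 := vP 0 (Nat.zero_le _)
  obtain ⟨x₀, hx₀e⟩ : ∃ x₀, x₀ = D.X ω 0 := ⟨_, rfl⟩
  rw [← hx₀e] at hNΦ' hN' hx₀
  obtain ⟨E, hE⟩ : ∃ E, E = exp (C₂ * z) := ⟨_, rfl⟩
  rw [← hE] at hNΦ' hN' hE6
  obtain ⟨W, hW⟩ : ∃ W, W = 4 * E := ⟨_, rfl⟩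
  have h2z : (1 : ℝ) ≤ 2 ^ z := one_le_pow₀ (by norm_num)
  have hE1 : 1 ≤ E := by linarith
  have hW4 : 4 ≤ W := by linarith
  obtain ⟨A, hA⟩ : ∃ A : ℝ, A = 2 ^ (N₁ * z) := ⟨_, rfl⟩
  have hWA : ∀ l ≤ n + 2, W ^ dd K₂ l ≤ A := by
    intro l hl
    rw [hA, hW, hE]
    refine (w_le (N := d) hz hC₂ (by rw [hd]; exact dd_mono hl)).trans ?_
    exact exp_two_pow hN₁
  have hEA : E ≤ A := by
    have h1 : E ≤ W := by linarith
    have h2 : W ≤ W ^ dd K₂ 0 := by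
      calc W = W ^ 1 := (pow_one _).symm
        _ ≤ W ^ dd K₂ 0 := pow_le_pow_right₀ (by linarith) (dd_pos _ _)
    exact h1.trans (h2.trans (hWA 0 (by omega)))
  have hA1 : 1 ≤ A := hE1.trans hEA
  have hA0 : 0 < A := by linarith
  have h22 : (2 : ℝ) ≤ 2 ^ z := by
    calc (2 : ℝ) = 2 ^ 1 := (pow_one _).symm
      _ ≤ 2 ^ z := pow_le_pow_right₀ (by norm_num) hz
  have hNc : ∀ {i₁ j₁ : ℕ}, i₁ < M → j₁ < M → Nb K₂ n (D.g i₁ j₁) (ch P x₀ (D.Ψ i₁ j₁ ω)) E :=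
    fun h1 h2 => hN' _ h1 _ h2 n le_rfl
  have hNij := hNc hi hj
  have hNΦ := hNΦ' n le_rfl
  -- a value from the size of the coordinates
  have val : ∀ {i₁ j₁ : ℕ}, i₁ < M → j₁ < M → ∀ (b : ℕ → ℝ) (l : ℕ) (A' : ℝ), b 0 = x₀ → 1 ≤ l →
      l ≤ n → 1 ≤ A' → (∀ r < l, |zs P b r| ≤ A' / 2 ^ D.g i₁ j₁ r) →
      |eval b (D.Ψ i₁ j₁ ω l) - eval b (P l)| ≤ A' ^ K₂ * A / 2 ^ D.g i₁ j₁ l := by
    intro i₁ j₁ h1 h2 b l A' hb0 l1 l2 hA' hb
    rw [← eval_ch hP hb0 l1]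
    refine ((hNc h1 h2).val l2 hA' hb).trans (div_le_div_of_nonneg_right ?_ (by positivity))
    exact mul_le_mul_of_nonneg_left hEA (by positivity)
  -- a point of a box
  have box : ∀ {g : ℕ → ℕ} {S : ℕ → PN} {c : ℕ}, c ≤ n → Nb K₂ n g (ch P x₀ S) E → ∀ b : ℕ → ℝ,
      b 0 = x₀ → (∀ r, 1 ≤ r → r < c → |b r - eval b (S r)| ≤ 1 / 2 ^ g r) →
      ∀ r < c, |zs P b r| ≤ A / 2 ^ g r := by
    intro g S c hc hN b hb0 hb r hr
    have h1 : Ptl c g (ch P x₀ S) (nat g S b) (zs P b) := by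
      refine ⟨zs_zero hP hb0 hx₀, fun l l1 _ => ?_⟩
      rw [eval_ch hP hb0 l1]
      unfold zs nat
      field_simp
      ring
    have h2 := (hN.mono hc le_rfl).ptl hE1 hW h1 (fun l l1 l2 => by
      have h3 := hb l l1 l2
      rw [le_div_iff₀ (by positivity)] at h3
      unfold nat
      rw [abs_mul, abs_of_pos (by positivity), mul_comm]
      exact h3.trans hE1) r hr
    exact h2.trans (div_le_div_of_nonneg_right (hWA r (by omega)) (by positivity))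
  -- the mixed box
  have mbx : ∀ {i' j' c : ℕ}, i' < M → j' < M → c ≤ n → ∀ b : ℕ → ℝ, MB D i j i' j' c ω b →
      ∀ r < c, |zs P b r| ≤ A / 2 ^ D.g i j r ∧ |zs P b r| ≤ A / 2 ^ D.g i' j' r := by
    intro i' j' c hi' hj' hc b hb r hr
    have hb0 : b 0 = x₀ := by rw [hx₀e]; exact hb.1
    have h2 := mix_bd (hNij.mono hc le_rfl) ((hNc hi' hj').mono hc le_rfl) hE1 hW
      (zs_zero hP hb0 hx₀)
      (fun l l1 l2 hl => by
        rw [eval_ch hP hb0 l1]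
        have h1 := hb.2 l l1 l2
        unfold mxs at h1
        beta_reduce at h1
        rw [if_pos hl, max_eq_right hl.le] at h1
        have e : zs P b l - (eval b (D.Ψ i' j' ω l) - eval b (P l)) =
            b l - eval b (D.Ψ i' j' ω l) := by
          unfold zs
          ring
        rw [e]
        exact h1.trans (div_le_div_of_nonneg_right hE1 (by positivity)))
      (fun l l1 l2 hl => by
        rw [eval_ch hP hb0 l1]
        have h1 := hb.2 l l1 l2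
        unfold mxs at h1
        beta_reduce at h1
        rw [if_neg (not_lt.2 hl), max_eq_left hl] at h1
        have e : zs P b l - (eval b (D.Ψ i j ω l) - eval b (P l)) =
            b l - eval b (D.Ψ i j ω l) := by
          unfold zs
          ring
        rw [e]
        exact h1.trans (div_le_div_of_nonneg_right hE1 (by positivity))) r hr
    exact ⟨h2.1.trans (div_le_div_of_nonneg_right (hWA r (by omega)) (by positivity)),
      h2.2.trans (div_le_div_of_nonneg_right (hWA r (by omega)) (by positivity))⟩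
  -- the scaled coordinates
  have scb : ∀ b : ℕ → ℝ, b 0 = x₀ → (∀ r < n, |zs P b r| ≤ A / 2 ^ D.g i j r) →
      ∀ l : Fin (n - 1), |scv n z (D.g i j) (D.Ψ i j ω) b l| ≤ 2 ^ (B * z) := by
    intro b hb0 hb l
    have hl := l.2
    have h1 := val hi hj b (l + 1) A hb0 (by omega) (by omega) hA1 fun r hr => hb r (by omega)
    have h2 := hb (l + 1) (by omega)
    have hg : (0 : ℝ) < 2 ^ D.g i j (l + 1) := by positivity
    have h3 : |nat (D.g i j) (D.Ψ i j ω) b (l + 1)| ≤ A + A ^ K₂ * A := by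
      have e : nat (D.g i j) (D.Ψ i j ω) b (l + 1) = 2 ^ D.g i j (l + 1) * (zs P b (l + 1) -
          (eval b (D.Ψ i j ω (l + 1)) - eval b (P (l + 1)))) := by
        unfold nat zs
        ring
      rw [e, abs_mul, abs_of_pos hg]
      have h4 := abs_sub (zs P b (l + 1)) (eval b (D.Ψ i j ω (l + 1)) - eval b (P (l + 1)))
      calc _ ≤ 2 ^ D.g i j (l + 1) * (A / 2 ^ D.g i j (l + 1) +
            A ^ K₂ * A / 2 ^ D.g i j (l + 1)) :=
            mul_le_mul_of_nonneg_left (h4.trans (add_le_add h2 h1)) hg.le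
        _ = A + A ^ K₂ * A := by field_simp
    have h4 := up_abs (z := z) h3
    refine h4.trans ?_
    have h5 : (1 : ℝ) ≤ A ^ K₂ := one_le_pow₀ hA1
    have h6 : A + A ^ K₂ * A + 1 ≤ 4 * (A ^ K₂ * A) := by nlinarith
    have h7 : 4 * (A ^ K₂ * A) ≤ 2 ^ z * 2 ^ z * (A ^ K₂ * A) :=
      mul_le_mul_of_nonneg_right (by nlinarith) (by positivity)
    refine h6.trans (h7.trans ?_)
    rw [hA, ← pow_mul, ← pow_add, ← pow_add, ← pow_add]
    refine pow_le_pow_right₀ (by norm_num) ?_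
    rw [hB]
    nlinarith [Nat.zero_le (N₁ * z), Nat.zero_le (B₀ * K₂ * z), Nat.zero_le (B₀ * z),
      Nat.zero_le (K₂ * z)]
  refine ⟨?_, ?_, ?_, ?_, ?_⟩
  · -- kj
    intro i₂ j₂ hi₂ hj₂ hlev l l1 l2 b hb
    have hb0 : b 0 = x₀ := by rw [hx₀e]; exact hb.1
    have h1 := box (c := l) (by omega) (hNc hi₂ hj₂) b hb0 fun r r1 r2 => hb.2 r r1 r2
    have h2 := val hi₂ hj₂ b l A hb0 l1 l2.le hA1 h1
    have hq : (1 : ℝ) ≤ 2 ^ (B₀ * z) := one_le_pow₀ (by norm_num)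
    have hlv : ∀ r, 1 ≤ r → r < n → (1 : ℝ) / 2 ^ D.g i₂ j₂ r ≤ 2 ^ (B₀ * z) / 2 ^ D.g i j r := by
      intro r r1 r2
      rw [div_le_div_iff₀ (by positivity) (by positivity), one_mul, ← pow_add]
      refine pow_le_pow_right₀ (by norm_num) ?_
      have := hlev r r1 r2
      omega
    have h3 : ∀ r < l, |zs P b r| ≤ A * 2 ^ (B₀ * z) / 2 ^ D.g i j r := by
      intro r hr
      rcases Nat.eq_zero_or_pos r with h0 | h0
      · subst h0
        rw [zs_zero hP hb0 hx₀, abs_zero]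
        positivity
      · refine (h1 r hr).trans ?_
        rw [mul_div_assoc, div_eq_mul_one_div]
        exact mul_le_mul_of_nonneg_left (hlv r h0 (by omega)) hA0.le
    have hAq : 1 ≤ A * 2 ^ (B₀ * z) := by nlinarith
    have h4 := val hi hj b l _ hb0 l1 l2.le hAq h3
    have h5 : A ^ K₂ * A / 2 ^ D.g i₂ j₂ l ≤ A ^ K₂ * A * 2 ^ (B₀ * z) / 2 ^ D.g i j l := by
      rw [mul_div_assoc (A ^ K₂ * A), div_eq_mul_one_div]
      exact mul_le_mul_of_nonneg_left (hlv l l1 l2) (by positivity)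
    have e : eval b (D.Ψ i j ω l) - eval b (D.Ψ i₂ j₂ ω l) =
        (eval b (D.Ψ i j ω l) - eval b (P l)) - (eval b (D.Ψ i₂ j₂ ω l) - eval b (P l)) := by
      ring
    rw [e]
    refine (abs_sub _ _).trans ((add_le_add h4 (h2.trans h5)).trans ?_)
    rw [← add_div]
    refine div_le_div_of_nonneg_right ?_ (by positivity)
    have h6 : A ^ K₂ * A * 2 ^ (B₀ * z) ≤ (A * 2 ^ (B₀ * z)) ^ K₂ * A * 2 ^ (B₀ * z) := by
      refine mul_le_mul_of_nonneg_right (mul_le_mul_of_nonneg_right ?_ hA0.le) (by positivity)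
      exact pow_le_pow_left₀ hA0.le (by nlinarith) _
    have h7 : (A * 2 ^ (B₀ * z)) ^ K₂ * A ≤ (A * 2 ^ (B₀ * z)) ^ K₂ * A * 2 ^ (B₀ * z) :=
      le_mul_of_one_le_right (by positivity) hq
    refine (add_le_add h7 h6).trans ?_
    rw [← two_mul]
    refine (mul_le_mul_of_nonneg_right h22 (by positivity)).trans ?_
    rw [hA, ← pow_add, ← pow_mul, ← pow_add, ← pow_add, ← pow_add]
    refine pow_le_pow_right₀ (by norm_num) ?_
    rw [hB]
    nlinarith [Nat.zero_le (N₁ * z), Nat.zero_le (B₀ * K₂ * z), Nat.zero_le (B₀ * z),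
      Nat.zero_le (K₂ * z)]
  · -- jm
    intro i' j' hi' hj' l l1 l2 b hb
    have hb0 : b 0 = x₀ := by rw [hx₀e]; exact hb.1
    have h1 := mbx (c := l) hi' hj' (by omega) b hb
    have h2 := val hi hj b l A hb0 l1 l2.le hA1 fun r hr => (h1 r hr).1
    have h3 := val hi' hj' b l A hb0 l1 l2.le hA1 fun r hr => (h1 r hr).2
    have e : eval b (D.Ψ i' j' ω l) - eval b (D.Ψ i j ω l) =
        (eval b (D.Ψ i' j' ω l) - eval b (P l)) - (eval b (D.Ψ i j ω l) - eval b (P l)) := by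
      ring
    rw [e]
    have hm : ∀ x, min (D.g i j l) (D.g i' j' l) ≤ x →
        A ^ K₂ * A / 2 ^ x ≤ A ^ K₂ * A / 2 ^ min (D.g i j l) (D.g i' j' l) := fun x hx =>
      div_le_div_of_nonneg_left (by positivity) (by positivity)
        (pow_le_pow_right₀ (by norm_num) hx)
    refine (abs_sub _ _).trans ((add_le_add (h3.trans (hm _ (min_le_right _ _)))
      (h2.trans (hm _ (min_le_left _ _)))).trans ?_)
    rw [← add_div, ← two_mul]
    refine div_le_div_of_nonneg_right ?_ (by positivity)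
    refine (mul_le_mul_of_nonneg_right h22 (by positivity)).trans ?_
    rw [hA, ← pow_mul, ← pow_add, ← pow_add]
    refine pow_le_pow_right₀ (by norm_num) ?_
    rw [hB]
    nlinarith [Nat.zero_le (N₁ * z), Nat.zero_le (B₀ * K₂ * z), Nat.zero_le (B₀ * z),
      Nat.zero_le (K₂ * z)]
  · intro b hb
    have hb0 : b 0 = x₀ := by rw [hx₀e]; exact hb.1
    exact scb b hb0 (box (c := n) le_rfl hNΦ b hb0 fun r r1 r2 => hb.2 r r1 r2)
  · intro i' j' hi' hj' b hb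
    have hb0 : b 0 = x₀ := by rw [hx₀e]; exact hb.1
    exact scb b hb0 fun r hr => (mbx (c := n) hi' hj' le_rfl b hb r hr).1
  · -- two
    intro i₁ j₁ X ω' hi₁ hj₁ hlev hX0 hΨ hpos l l1 l2
    have hb0 : D.X ω' 0 = x₀ := by rw [hX0, hx₀e]
    obtain ⟨δ, hδ⟩ : ∃ δ : ℝ, δ = A / 2 ^ (X + B * z) := ⟨_, rfl⟩
    have hδ0 : 0 < δ := by rw [hδ]; positivity
    have hpt : Pt n (D.g i₁ j₁) (ch P x₀ (D.Ψ i₁ j₁ ω)) (nat (D.g i₁ j₁) (D.Ψ i₁ j₁ ω) (D.X ω'))
        (zs P (D.X ω')) := by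
      refine ⟨zs_zero hP hb0 hx₀, fun l l1 _ => ?_⟩
      rw [eval_ch hP hb0 l1]
      unfold zs nat
      field_simp
      ring
    have hbd : ∀ r ≤ n, |zs P (D.X ω') r| ≤ δ / 2 ^ D.g i j r := by
      intro r hr
      rcases Nat.eq_zero_or_pos r with h0 | h0
      · subst h0
        rw [zs_zero hP hb0 hx₀, abs_zero]
        positivity
      · have h1 := (hNc hi₁ hj₁).pt hE1 hW hpt (fun l l1 l2 => by
          have h3 := hpos l l1 l2
          rw [le_div_iff₀ (by positivity)] at h3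
          unfold nat
          rw [abs_mul, abs_of_pos (by positivity), mul_comm]
          exact h3.trans hE1) r hr
        refine h1.trans ((div_le_div_of_nonneg_right (hWA r (by omega)) (by positivity)).trans ?_)
        rw [hδ, div_div, ← pow_add]
        refine div_le_div_of_nonneg_left hA0.le (by positivity) (pow_le_pow_right₀ (by norm_num) ?_)
        have := hlev r h0 hr
        omega
    have hAB : A * (1 + K₂ * A) ≤ 2 ^ (B * z) := by
      have h1 : (K₂ : ℝ) ≤ 2 ^ (K₂ * z) := by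
        have h2 : K₂ ≤ 2 ^ K₂ := (Nat.lt_two_pow_self).le
        have h3 : (K₂ : ℝ) ≤ 2 ^ K₂ := by exact_mod_cast h2
        exact h3.trans (pow_le_pow_right₀ (by norm_num) (Nat.le_mul_of_pos_right _ hz))
      have h2 : (1 : ℝ) ≤ 2 ^ (K₂ * z) := one_le_pow₀ (by norm_num)
      have h3 : 1 + K₂ * A ≤ 2 * (2 ^ (K₂ * z) * A) := by nlinarith
      have h4 : A * (1 + K₂ * A) ≤ A * (2 ^ z * (2 ^ (K₂ * z) * A)) :=
        mul_le_mul_of_nonneg_left (h3.trans (mul_le_mul_of_nonneg_right h22 (by positivity))) hA0.le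
      refine h4.trans ?_
      rw [hA, ← pow_add, ← pow_add, ← pow_add]
      refine pow_le_pow_right₀ (by norm_num) ?_
      rw [hB]
      nlinarith [Nat.zero_le (N₁ * z), Nat.zero_le (B₀ * K₂ * z), Nat.zero_le (B₀ * z),
        Nat.zero_le (K₂ * z), Nat.zero_le (N₁ * K₂ * z)]
    have hδA : δ * (1 + K₂ * A) ≤ 1 / 2 ^ X := by
      rw [hδ, pow_add, div_mul_eq_mul_div, div_le_div_iff₀ (by positivity) (by positivity), one_mul]
      calc A * (1 + K₂ * A) * 2 ^ X ≤ 2 ^ (B * z) * 2 ^ X :=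
            mul_le_mul_of_nonneg_right hAB (by positivity)
        _ = 2 ^ X * 2 ^ (B * z) := mul_comm _ _
    have hδ1 : δ ≤ 1 := by
      have h1 : δ * 1 ≤ δ * (1 + K₂ * A) := mul_le_mul_of_nonneg_left (by
        have : 0 ≤ (K₂ : ℝ) * A := by positivity
        linarith) hδ0.le
      have h2 : (1 : ℝ) / 2 ^ X ≤ 1 := by
        rw [div_le_one (by positivity)]
        exact one_le_pow₀ (by norm_num)
      linarith
    have hz0 : ∀ r ≤ n, zs P (D.X ω) r = 0 := fun r hr => by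
      unfold zs
      rw [vP r hr, sub_self]
    have hlip := hNij.lip (l := l) l2 (B := 1) le_rfl (δ := δ) hδ0.le
      (β := zs P (D.X ω')) (β' := zs P (D.X ω))
      (fun k hk => (hbd k (by omega)).trans (div_le_div_of_nonneg_right hδ1 (by positivity)))
      (fun k hk => by
        rw [hz0 k (by omega), abs_zero]
        positivity)
      (fun k hk => by
        rw [hz0 k (by omega), sub_zero]
        exact hbd k (by omega))
    have hg : (0 : ℝ) < 2 ^ D.g i j l := by positivity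
    have e1 : ztS D i j (D.Ψ i j) ω l - ztS D i j (D.Ψ i j) ω' l = -(2 ^ D.g i j l *
        (zs P (D.X ω') l - (eval (zs P (D.X ω')) (ch P x₀ (D.Ψ i j ω) l) -
          eval (zs P (D.X ω)) (ch P x₀ (D.Ψ i j ω) l)))) := by
      rw [eval_ch hP hb0 l1, eval_ch hP hx₀e.symm l1]
      unfold ztS nat zs
      rw [hΨ, vP l l2]
      ring
    rw [e1, abs_neg, abs_mul, abs_of_pos hg]
    have h6 := abs_sub (zs P (D.X ω') l) (eval (zs P (D.X ω')) (ch P x₀ (D.Ψ i j ω) l) -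
      eval (zs P (D.X ω)) (ch P x₀ (D.Ψ i j ω) l))
    have h7 : |eval (zs P (D.X ω')) (ch P x₀ (D.Ψ i j ω) l) -
        eval (zs P (D.X ω)) (ch P x₀ (D.Ψ i j ω) l)| ≤ K₂ * A * δ / 2 ^ D.g i j l := by
      refine hlip.trans (div_le_div_of_nonneg_right ?_ hg.le)
      rw [one_pow, mul_one]
      refine mul_le_mul_of_nonneg_right ?_ hδ0.le
      exact mul_le_mul_of_nonneg_left hEA (Nat.cast_nonneg _)
    calc _ ≤ 2 ^ D.g i j l * (δ / 2 ^ D.g i j l + K₂ * A * δ / 2 ^ D.g i j l) :=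
          mul_le_mul_of_nonneg_left (h6.trans (add_le_add (hbd l l2) h7)) hg.le
      _ = δ * (1 + K₂ * A) := by
          field_simp
      _ ≤ 1 / 2 ^ X := hδA

end Pool.VAS
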