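import Pool.Agent.H46.LSH.Num
import Pool.Agent.H19.STAT.MicTop

/-!
# The numbers of the places, no ties

The coordinates of smaller ratio than the target are ordered by the ratio, `co r` is the number of
the coordinate of rank `r`. `be` is the number of steps of the window, `al r` the number of steps of
the radius of the coordinate of rank `r`, `an` of the target. All of them are at most `L (W + 1)`.
-/

set_option autoImplicit false

namespace Pool.VAS

open Finset Pool.STAT Pool.LSH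

/-- The coordinates of smaller ratio. -/
structure CoV (n : ℕ) (lam gam : ℕ → ℝ) {k : ℕ} (co : Fin k → ℕ) : Prop where
  ge : ∀ r, 1 ≤ co r
  lt : ∀ r, co r < n
  inj : Function.Injective co
  sm : ∀ r, gam (co r) * lam n < gam n * lam (co r)
  all : ∀ l, 1 ≤ l → l < n → gam l * lam n < gam n * lam l → ∃ r, co r = l

/-- The numbers of the places. -/
structure PlV (n : ℕ) (lam gam : ℕ → ℝ) (c₀ c : ℝ) (L W be : ℕ) {k : ℕ} (co al : Fin k → ℕ)
    (an : ℕ) : Prop where
  W_be : W ≤ be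
  mono : Monotone al
  gap : ∀ r s, al r < al s → al r + W ≤ al s
  gapn : ∀ r, al r + W ≤ an
  own : ∀ r s, al r = al s → c₀ ≤ lam (co s) * al r - gam (co s) * be ∧
    lam (co s) * al r - gam (co s) * be ≤ c
  nar : ∀ r s, al s < al r → (W : ℝ) ≤ lam (co s) * al r - gam (co s) * be
  wid : ∀ r s, al r < al s → (W : ℝ) ≤ gam (co s) * be - lam (co s) * al r
  narn : ∀ s, (W : ℝ) ≤ lam (co s) * an - gam (co s) * be
  /-- the coordinates of larger ratio -/
  big : ∀ l, 1 ≤ l → l < n → gam n * lam l < gam l * lam n → (W : ℝ) ≤ gam l * be - lam l * an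
  tgt : c₀ ≤ gam n * be - lam n * an
  tgt' : gam n * be - lam n * an ≤ c
  be_le : be ≤ L * (W + 1)
  an_le : an ≤ L * (W + 1)

/-- **The numbers exist.** -/
theorem exists_plv (n : ℕ) (lam gam : ℕ → ℝ) (hlam : ∀ l, 0 < lam l) (hgam : ∀ l, 0 ≤ gam l)
    (hgn : 0 < gam n) (c₀ : ℝ) (hc₀ : 0 ≤ c₀) :
    ∃ (k : ℕ) (co : Fin k → ℕ) (c : ℝ) (L : ℕ), CoV n lam gam co ∧ ∀ W : ℕ,
      ∃ (be : ℕ) (al : Fin k → ℕ) (an : ℕ), PlV n lam gam c₀ c L W be co al an := by
  classical
  obtain ⟨lm, hlm, hlm1⟩ := exists_pos_lb (range (n + 1)) lam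
  have hlm2 : ∀ l ≤ n, lm ≤ lam l := fun l hl => hlm1 l (by simp; omega) (hlam l)
  obtain ⟨LM, hLM⟩ : ∃ LM : ℝ, LM = ∑ l ∈ range (n + 1), lam l := ⟨_, rfl⟩
  have hLM2 : ∀ l ≤ n, lam l ≤ LM := fun l hl => by
    rw [hLM]
    exact Finset.single_le_sum (f := lam) (fun i _ => (hlam i).le) (by simp; omega)
  -- the coordinates
  obtain ⟨Sm, hSm⟩ : ∃ Sm : Finset ℕ, Sm = (range n).filter fun l => 1 ≤ l ∧
    gam l * lam n < gam n * lam l := ⟨_, rfl⟩
  have hSm1 : ∀ l, l ∈ Sm ↔ (l < n ∧ 1 ≤ l ∧ gam l * lam n < gam n * lam l) := fun l => by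
    rw [hSm, mem_filter, mem_range]
  obtain ⟨k, hk⟩ : ∃ k, k = Sm.card := ⟨_, rfl⟩
  obtain ⟨e, -⟩ : ∃ e : Fin k ≃ {x // x ∈ Sm}, True :=
    ⟨(finCongr hk).trans (Finset.equivFin Sm).symm, trivial⟩
  -- the ratios
  obtain ⟨ρ, hρ⟩ : ∃ ρ : Fin k → ℝ, ρ = fun r : Fin k =>
      gam (e r).1 / lam (e r).1 := ⟨_, rfl⟩
  obtain ⟨σ, hσ⟩ : ∃ σ : Equiv.Perm (Fin k), σ = Tuple.sort ρ := ⟨_, rfl⟩
  obtain ⟨R, hR⟩ : ∃ R : Fin k → ℝ, R = fun r => ρ (σ r) := ⟨_, rfl⟩
  have hRm : Monotone R := by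
    rw [hR, hσ]
    exact Tuple.monotone_sort ρ
  obtain ⟨co, hco⟩ : ∃ co : Fin k → ℕ, co = fun r : Fin k => ((e (σ r)).1 : ℕ) := ⟨_, rfl⟩
  have hcom : ∀ r, co r ∈ Sm := fun r => by
    rw [hco]
    exact (e (σ r)).2
  have hCo : CoV n lam gam co :=
    { ge := fun r => ((hSm1 _).1 (hcom r)).2.1
      lt := fun r => ((hSm1 _).1 (hcom r)).1
      inj := fun r s h => by
        rw [hco] at h
        exact σ.injective (e.injective (Subtype.ext h))
      sm := fun r => ((hSm1 _).1 (hcom r)).2.2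
      all := fun l l1 l2 h => by
        have hl : l ∈ Sm := (hSm1 l).2 ⟨l2, l1, h⟩
        refine ⟨σ.symm (e.symm ⟨l, hl⟩), ?_⟩
        rw [hco]
        simp }
  have hRg : ∀ r, gam (co r) = lam (co r) * R r := by
    intro r
    rw [hR, hco, hρ]
    simp only
    rw [mul_div_cancel₀]
    exact (hlam _).ne'
  have hR0 : ∀ r, 0 ≤ R r := fun r => by
    rw [hR, hρ]
    exact div_nonneg (hgam _) (hlam _).le
  obtain ⟨ρn, hρn⟩ : ∃ ρn : ℝ, ρn = gam n / lam n := ⟨_, rfl⟩
  have hρg : gam n = lam n * ρn := by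
    rw [hρn, mul_div_cancel₀]
    exact (hlam _).ne'
  have hRn : ∀ r, R r < ρn := by
    intro r
    have h1 := hCo.sm r
    rw [hRg, hρg] at h1
    have h2 : (lam (co r) * lam n) * R r < (lam (co r) * lam n) * ρn := by nlinarith
    exact lt_of_mul_lt_mul_left h2 (mul_nonneg (hlam _).le (hlam _).le)
  have hρn0 : 0 < ρn := by rw [hρn]; exact div_pos hgn (hlam n)
  -- the gap of the ratios
  obtain ⟨δ₁, hδ₁, h1⟩ := exists_pos_lb (univ : Finset (Fin k × Fin k))
    (fun x => R x.2 - R x.1)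
  obtain ⟨δ₂, hδ₂, h2⟩ := exists_pos_lb (univ : Finset (Fin k)) (fun x => ρn - R x)
  obtain ⟨δ₃, hδ₃, h3⟩ := exists_pos_lb (range n) (fun l => gam l / lam l - ρn)
  obtain ⟨δ, hδ⟩ : ∃ δ : ℝ, δ = min (min δ₁ δ₂) (min δ₃ ρn) := ⟨_, rfl⟩
  have hδ0 : 0 < δ := by
    rw [hδ]
    exact lt_min (lt_min hδ₁ hδ₂) (lt_min hδ₃ hρn0)
  have hd1 : ∀ r s, R r < R s → δ ≤ R s - R r := fun r s h => by
    have := h1 (r, s) (Finset.mem_univ _) (by simpa using h)
    rw [hδ]
    exact ((min_le_left _ _).trans (min_le_left _ _)).trans this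
  have hd2 : ∀ r, δ ≤ ρn - R r := fun r => by
    have := h2 r (Finset.mem_univ _) (by have := hRn r; linarith)
    rw [hδ]
    exact ((min_le_left _ _).trans (min_le_right _ _)).trans this
  have hd3 : δ ≤ ρn := by
    rw [hδ]
    exact (min_le_right _ _).trans (min_le_right _ _)
  have hd4 : ∀ l, l < n → gam n * lam l < gam l * lam n → lam l * (ρn + δ) ≤ gam l := by
    intro l l2 h
    have e1 : gam l = lam l * (gam l / lam l) := by
      rw [mul_div_cancel₀]
      exact (hlam _).ne'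
    have h4 : ρn < gam l / lam l := by
      rw [hρn, div_lt_div_iff₀ (hlam n) (hlam l)]
      exact h
    have h5 := h3 l (mem_range.2 l2) (by linarith)
    have h6 : δ ≤ gam l / lam l - ρn := by
      rw [hδ]
      exact ((min_le_right _ _).trans (min_le_left _ _)).trans h5
    rw [e1]
    exact mul_le_mul_of_nonneg_left (by linarith) (hlam l).le
  obtain ⟨cl, hcl⟩ : ∃ cl : ℝ, cl = c₀ / lm := ⟨_, rfl⟩
  have hcl0 : 0 ≤ cl := by rw [hcl]; positivity
  have hclc : lm * cl = c₀ := by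
    rw [hcl, mul_div_cancel₀]
    exact hlm.ne'
  have hcn : c₀ / lam n ≤ cl := by
    rw [hcl]
    exact div_le_div_of_nonneg_left hc₀ hlm (hlm2 n le_rfl)
  have hcn0 : 0 ≤ c₀ / lam n := div_nonneg hc₀ (hlam n).le
  have hcn1 : lam n * (c₀ / lam n) = c₀ := by
    rw [mul_div_cancel₀]
    exact (hlam n).ne'
  obtain ⟨L₀, hL₀⟩ : ∃ L₀ : ℝ, L₀ = 1 + ((1 / lm + 1) + (2 * cl + 2)) / δ + 1 := ⟨_, rfl⟩
  have hL₀0 : 0 ≤ L₀ := by rw [hL₀]; positivity
  obtain ⟨L, hL⟩ := exists_nat_ge (L₀ + ρn * L₀)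
  refine ⟨k, co, LM * (cl + 1) + c₀, L, hCo, fun W => ?_⟩
  have hW0 : (0 : ℝ) ≤ W := Nat.cast_nonneg W
  obtain ⟨y, hy⟩ : ∃ y : ℝ, y = (W / lm + W + 2 * cl + 2) / δ := ⟨_, rfl⟩
  have hy0 : 0 ≤ y := by rw [hy]; positivity
  obtain ⟨x, hxe⟩ : ∃ x : ℕ, x = ⌈y⌉₊ := ⟨_, rfl⟩
  have hx : y ≤ x := by rw [hxe]; exact Nat.le_ceil _
  have hx' : (x : ℝ) ≤ y + 1 := by rw [hxe]; exact (Nat.ceil_lt_add_one hy0).le
  obtain ⟨be, hbe⟩ : ∃ be : ℕ, be = max W x := ⟨_, rfl⟩
  have hb1 : W ≤ be := by rw [hbe]; exact le_max_left _ _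
  have hb2 : W / lm + W + 2 * cl + 2 ≤ δ * be := by
    have h3 : (W / lm + W + 2 * cl + 2) / δ ≤ be := by
      rw [← hy]
      refine hx.trans ?_
      exact_mod_cast (by rw [hbe]; exact le_max_right _ _ : x ≤ be)
    rw [div_le_iff₀ hδ0] at h3
    linarith
  have hb0 : (0 : ℝ) ≤ be := Nat.cast_nonneg be
  have hbL : (be : ℝ) ≤ L₀ * (W + 1) := by
    have h3 : (be : ℝ) ≤ W + x := by
      have : be ≤ W + x := by rw [hbe]; omega
      exact_mod_cast this
    have h4 : y ≤ ((1 / lm + 1) + (2 * cl + 2)) / δ * (W + 1) := by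
      rw [hy, div_mul_eq_mul_div]
      refine div_le_div_of_nonneg_right ?_ hδ0.le
      have h5 : (W : ℝ) / lm = 1 / lm * W := by ring
      rw [h5]
      have h6 : 0 ≤ 1 / lm := by positivity
      nlinarith
    have h5 : L₀ * (W + 1) = (W + 1) + ((1 / lm + 1) + (2 * cl + 2)) / δ * (W + 1) + (W + 1) := by
      rw [hL₀]
      ring
    linarith
  have hWl : 0 ≤ W / lm := by positivity
  have hWl2 : lm * (W / lm) = W := by
    rw [mul_div_cancel₀]
    exact hlm.ne'
  -- the steps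
  obtain ⟨al, hal⟩ : ∃ al : Fin k → ℕ, al = fun r : Fin k => ⌈R r * be + cl⌉₊ := ⟨_, rfl⟩
  have al1 : ∀ r, R r * be + cl ≤ al r := fun r => by rw [hal]; exact Nat.le_ceil _
  have al2 : ∀ r, (al r : ℝ) ≤ R r * be + cl + 1 := fun r => by
    rw [hal]
    exact (Nat.ceil_lt_add_one (add_nonneg (mul_nonneg (hR0 r) hb0) hcl0)).le
  have alm : ∀ r s, R r ≤ R s → al r ≤ al s := fun r s h => by
    rw [hal]
    exact Nat.ceil_mono (by
      have := mul_le_mul_of_nonneg_right h hb0
      linarith)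
  obtain ⟨an, han⟩ : ∃ an : ℕ, an = ⌊ρn * be - c₀ / lam n⌋₊ := ⟨_, rfl⟩
  have hnn : 0 ≤ ρn * be - c₀ / lam n := by
    have := mul_le_mul_of_nonneg_right hd3 hb0
    linarith
  have an1 : (an : ℝ) ≤ ρn * be - c₀ / lam n := by rw [han]; exact Nat.floor_le hnn
  have an2 : ρn * be - c₀ / lam n - 1 ≤ an := by
    rw [han]
    exact (Nat.sub_one_lt_floor _).le
  have hgap : ∀ r s, R r < R s → al r + W ≤ al s := by
    intro r s h
    have h3 := hd1 r s h
    have h4 := mul_le_mul_of_nonneg_right h3 hb0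
    have h5 := al2 r
    have h6 := al1 s
    have h7 : ((al r + W : ℕ) : ℝ) ≤ al s := by
      push_cast
      linarith
    exact_mod_cast h7
  have hlt : ∀ r s, al r < al s → R r < R s := by
    intro r s h
    by_contra hc
    have := alm s r (not_lt.1 hc)
    omega
  have heq : ∀ r s, al r = al s → R r = R s := by
    intro r s h
    by_contra hc
    rcases lt_or_gt_of_ne hc with h3 | h3
    · have h4 := mul_le_mul_of_nonneg_right (hd1 r s h3) hb0
      have h5 := al2 r
      have h6 := al1 s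
      rw [h] at h5
      linarith
    · have h4 := mul_le_mul_of_nonneg_right (hd1 s r h3) hb0
      have h5 := al2 s
      have h6 := al1 r
      rw [h] at h6
      linarith
  refine ⟨be, al, an, ?_⟩
  have l1 : ∀ s, lm ≤ lam (co s) := fun s => hlm2 _ (hCo.lt s).le
  have l2 : ∀ s, lam (co s) ≤ LM := fun s => hLM2 _ (hCo.lt s).le
  have hLr : L₀ + ρn * L₀ ≤ L := hL
  have hW1 : (0 : ℝ) ≤ (W : ℝ) + 1 := by linarith
  have hρL : 0 ≤ ρn * L₀ := mul_nonneg hρn0.le hL₀0
  exact
  { W_be := hb1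
    mono := fun r s h => alm r s (hRm h)
    gap := fun r s h => hgap r s (hlt r s h)
    gapn := fun r => by
      have h3 := mul_le_mul_of_nonneg_right (hd2 r) hb0
      have h5 := al2 r
      have h7 : ((al r + W : ℕ) : ℝ) ≤ an := by
        push_cast
        linarith
      exact_mod_cast h7
    own := fun r s h => by
      have h3 := heq r s h
      have h4 := al1 r
      have h5 := al2 r
      rw [hRg s, ← h3]
      have h6 : lam (co s) * al r - lam (co s) * R r * be = lam (co s) * (al r - R r * be) := by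
        ring
      rw [h6]
      constructor
      · calc c₀ = lm * cl := hclc.symm
          _ ≤ lam (co s) * (al r - R r * be) :=
            mul_le_mul (l1 s) (by linarith) hcl0 (hlam _).le
      · have h7 : lam (co s) * (al r - R r * be) ≤ LM * (cl + 1) :=
          mul_le_mul (l2 s) (by linarith) (by linarith) ((hlam _).le.trans (l2 s))
        linarith
    nar := fun r s h => by
      have h3 := hd1 s r (hlt s r h)
      have h4 := mul_le_mul_of_nonneg_right h3 hb0
      have h5 := al1 r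
      rw [hRg s]
      have h6 : lam (co s) * al r - lam (co s) * R s * be = lam (co s) * (al r - R s * be) := by
        ring
      rw [h6, ← hWl2]
      exact mul_le_mul (l1 s) (by linarith) hWl (hlam _).le
    wid := fun r s h => by
      have h3 := hd1 r s (hlt r s h)
      have h4 := mul_le_mul_of_nonneg_right h3 hb0
      have h5 := al2 r
      rw [hRg s]
      have h6 : lam (co s) * R s * be - lam (co s) * al r = lam (co s) * (R s * be - al r) := by
        ring
      rw [h6, ← hWl2]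
      exact mul_le_mul (l1 s) (by linarith) hWl (hlam _).le
    narn := fun s => by
      have h4 := mul_le_mul_of_nonneg_right (hd2 s) hb0
      rw [hRg s]
      have h6 : lam (co s) * an - lam (co s) * R s * be = lam (co s) * (an - R s * be) := by
        ring
      rw [h6, ← hWl2]
      exact mul_le_mul (l1 s) (by linarith) hWl (hlam _).le
    big := fun l _ l2 h => by
      have h3 := hd4 l l2 h
      have h4 := hlm2 l l2.le
      have h5 : lam l * ((ρn + δ) * be - an) ≤ gam l * be - lam l * an := by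
        have := mul_le_mul_of_nonneg_right h3 hb0
        nlinarith
      refine le_trans ?_ h5
      rw [← hWl2]
      exact mul_le_mul h4 (by nlinarith) hWl (hlam _).le
    tgt := by
      rw [hρg]
      have h6 : lam n * ρn * be - lam n * an = lam n * (ρn * be - an) := by ring
      rw [h6, ← hcn1]
      refine mul_le_mul_of_nonneg_left ?_ (hlam n).le
      linarith
    tgt' := by
      rw [hρg]
      have h6 : lam n * ρn * be - lam n * an = lam n * (ρn * be - an) := by ring
      have h7 : lam n * (ρn * be - an) ≤ lam n * (c₀ / lam n + 1) :=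
        mul_le_mul_of_nonneg_left (by linarith) (hlam n).le
      have h8 : lam n ≤ LM := hLM2 n le_rfl
      have h9 : LM * 1 ≤ LM * (cl + 1) :=
        mul_le_mul_of_nonneg_left (by linarith) ((hlam n).le.trans h8)
      rw [h6]
      nlinarith
    be_le := by
      have h3 : ((be : ℕ) : ℝ) ≤ ((L * (W + 1) : ℕ) : ℝ) := by
        push_cast
        refine hbL.trans (mul_le_mul_of_nonneg_right ?_ hW1)
        linarith
      exact_mod_cast h3
    an_le := by
      have h4 : (an : ℝ) ≤ ρn * (L₀ * (W + 1)) := by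
        have := mul_le_mul_of_nonneg_left hbL hρn0.le
        linarith
      have h3 : ((an : ℕ) : ℝ) ≤ ((L * (W + 1) : ℕ) : ℝ) := by
        push_cast
        refine h4.trans ?_
        rw [← mul_assoc]
        refine mul_le_mul_of_nonneg_right ?_ hW1
        linarith
      exact_mod_cast h3 }

end Pool.VAS
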